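import Pool.Agent.H246Z.HASyn

/-! From a category of structures and embeddings to a Kripke model on a partial order whose
transitions are literal inclusions of substructures. -/

set_option autoImplicit false

namespace Pool.Agent.H246Z.HA

/-- A family of structures with a distinguished category of embeddings. -/
structure Pre where
  K : Type
  M : K → Type
  zero : ∀ k, M k
  succ : ∀ k, M k → M k
  add : ∀ k, M k → M k → M k
  mul : ∀ k, M k → M k → M k
  R : ∀ k k', (M k → M k') → Prop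
  R_id : ∀ k, R k k id
  R_comp : ∀ {k k' k'' f g}, R k k' f → R k' k'' g → R k k'' (g ∘ f)
  R_inj : ∀ {k k' f}, R k k' f → Function.Injective f
  R_zero : ∀ {k k' f}, R k k' f → f (zero k) = zero k'
  R_succ : ∀ {k k' f}, R k k' f → ∀ a, f (succ k a) = succ k' (f a)
  R_add : ∀ {k k' f}, R k k' f → ∀ a b, f (add k a b) = add k' (f a) (f b)
  R_mul : ∀ {k k' f}, R k k' f → ∀ a b, f (mul k a b) = mul k' (f a) (f b)

namespace Pre

variable (P : Pre)

def eval (k : P.K) (ρ : ℕ → P.M k) : Tm → P.M k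
  | .var n => ρ n
  | .zero => P.zero k
  | .succ t => P.succ k (eval k ρ t)
  | .add s t => P.add k (eval k ρ s) (eval k ρ t)
  | .mul s t => P.mul k (eval k ρ s) (eval k ρ t)

def Sat (k : P.K) : Fm → (ℕ → P.M k) → Prop
  | .eq s t, ρ => P.eval k ρ s = P.eval k ρ t
  | .bot, _ => False
  | .and A B, ρ => Sat k A ρ ∧ Sat k B ρ
  | .or A B, ρ => Sat k A ρ ∨ Sat k B ρ
  | .imp A B, ρ => Sat k A ρ → Sat k B ρ
  | .all A, ρ => ∀ a, Sat k A (cons a ρ)
  | .ex A, ρ => ∃ a, Sat k A (cons a ρ)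

def Force : Fm → (k : P.K) → (ℕ → P.M k) → Prop
  | .eq s t, k, ρ => P.eval k ρ s = P.eval k ρ t
  | .bot, _, _ => False
  | .and A B, k, ρ => Force A k ρ ∧ Force B k ρ
  | .or A B, k, ρ => Force A k ρ ∨ Force B k ρ
  | .imp A B, k, ρ => ∀ k' f, P.R k k' f →
      Force A k' (fun n => f (ρ n)) → Force B k' (fun n => f (ρ n))
  | .all A, k, ρ => ∀ k' f, P.R k k' f → ∀ a, Force A k' (cons a (fun n => f (ρ n)))
  | .ex A, k, ρ => ∃ a, Force A k (cons a ρ)

/-- The common universe. -/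
abbrev U : Type := ℕ × (Σ k, P.M k)

/-- A node of the literal model. -/
structure Node where
  k : P.K
  n : ℕ
  e : P.M k → P.U
  inj : Function.Injective e
  lev : ∀ a, (e a).1 ≤ n

variable {P}

def Node.le (p q : P.Node) : Prop :=
  p = q ∨ (p.n < q.n ∧ ∃ f, P.R p.k q.k f ∧ ∀ a, q.e (f a) = p.e a)

instance : PartialOrder P.Node where
  le := Node.le
  le_refl _ := Or.inl rfl
  le_trans p q r h1 h2 := by
    rcases h1 with rfl | ⟨h1, f, hf, ef⟩
    · exact h2
    rcases h2 with rfl | ⟨h2, g, hg, eg⟩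
    · exact Or.inr ⟨h1, f, hf, ef⟩
    · exact Or.inr ⟨h1.trans h2, g ∘ f, P.R_comp hf hg, fun a => (eg _).trans (ef a)⟩
  le_antisymm p q h1 h2 := by
    rcases h1 with rfl | ⟨h1, -⟩
    · rfl
    rcases h2 with rfl | ⟨h2, -⟩
    · rfl
    · omega

theorem forth {p q : P.Node} (h : p ≤ q) : ∃ f, P.R p.k q.k f ∧ ∀ a, q.e (f a) = p.e a := by
  rcases h with rfl | ⟨-, h⟩
  · exact ⟨id, P.R_id _, fun _ => rfl⟩
  · exact h

open Classical in
/-- The node above `p` given by an embedding `f`. -/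
noncomputable def ext (p : P.Node) {k' : P.K} {f : P.M p.k → P.M k'} (_hf : P.R p.k k' f) :
    P.Node where
  k := k'
  n := p.n + 1
  e a := if h : ∃ b, f b = a then p.e h.choose else (p.n + 1, ⟨k', a⟩)
  inj := by
    intro a b hab
    by_cases ha : ∃ c, f c = a <;> by_cases hb : ∃ c, f c = b
    · simp only [dif_pos ha, dif_pos hb] at hab
      rw [← ha.choose_spec, ← hb.choose_spec, p.inj hab]
    · simp only [dif_pos ha, dif_neg hb] at hab
      have := p.lev ha.choose
      rw [hab] at this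
      simp at this
    · simp only [dif_neg ha, dif_pos hb] at hab
      have := p.lev hb.choose
      rw [← hab] at this
      simp at this
    · simp only [dif_neg ha, dif_neg hb] at hab
      have := (Prod.ext_iff.1 hab).2
      exact eq_of_heq (Sigma.mk.inj this).2
  lev a := by
    by_cases ha : ∃ c, f c = a
    · simp only [dif_pos ha]; exact (p.lev _).trans (Nat.le_succ _)
    · simp only [dif_neg ha]; exact le_rfl

theorem ext_e (p : P.Node) {k' : P.K} {f : P.M p.k → P.M k'} (hf : P.R p.k k' f) (a : P.M p.k) :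
    (ext p hf).e (f a) = p.e a := by
  have h : ∃ b, f b = f a := ⟨a, rfl⟩
  simp only [ext, dif_pos h]
  rw [P.R_inj hf h.choose_spec]

theorem le_ext (p : P.Node) {k' : P.K} {f : P.M p.k → P.M k'} (hf : P.R p.k k' f) :
    p ≤ ext p hf :=
  Or.inr ⟨Nat.lt_succ_self _, f, hf, ext_e p hf⟩

/-- The base node over `k`. -/
def base (k : P.K) : P.Node where
  k := k
  n := 0
  e a := (0, ⟨k, a⟩)
  inj _ _ h := eq_of_heq (Sigma.mk.inj (Prod.ext_iff.1 h).2).2
  lev _ := le_rfl

/-- inverse of the embedding -/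
noncomputable def Node.inv (p : P.Node) (u : P.U) : P.M p.k :=
  haveI : Nonempty (P.M p.k) := ⟨P.zero p.k⟩
  Function.invFun p.e u

@[simp] theorem Node.inv_e (p : P.Node) (a : P.M p.k) : p.inv (p.e a) = a :=
  haveI : Nonempty (P.M p.k) := ⟨P.zero p.k⟩
  Function.leftInverse_invFun p.inj a

/-- The structure at a node. -/
noncomputable def Node.str (p : P.Node) : Str P.U where
  D := Set.range p.e
  zero := p.e (P.zero p.k)
  succ u := p.e (P.succ p.k (p.inv u))
  add u v := p.e (P.add p.k (p.inv u) (p.inv v))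
  mul u v := p.e (P.mul p.k (p.inv u) (p.inv v))
  zero_mem := ⟨_, rfl⟩
  succ_mem _ _ := ⟨_, rfl⟩
  add_mem _ _ _ _ := ⟨_, rfl⟩
  mul_mem _ _ _ _ := ⟨_, rfl⟩

variable (P) in
/-- The literal Kripke model. -/
noncomputable def lit : Kripke P.Node P.U where
  M p := p.str
  sub p q h := by
    obtain ⟨f, hf, e⟩ := forth h
    refine ⟨?_, ?_, ?_, ?_, ?_⟩
    · rintro _ ⟨a, rfl⟩; exact ⟨f a, e a⟩
    · show p.e _ = q.e _
      rw [← e, P.R_zero hf]
    · rintro _ ⟨a, rfl⟩
      show p.e _ = q.e _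
      rw [Node.inv_e, ← e a, Node.inv_e, ← e, P.R_succ hf]
    · rintro _ ⟨a, rfl⟩ _ ⟨b, rfl⟩
      show p.e _ = q.e _
      rw [Node.inv_e, Node.inv_e, ← e a, ← e b, Node.inv_e, Node.inv_e, ← e, P.R_add hf]
    · rintro _ ⟨a, rfl⟩ _ ⟨b, rfl⟩
      show p.e _ = q.e _
      rw [Node.inv_e, Node.inv_e, ← e a, ← e b, Node.inv_e, Node.inv_e, ← e, P.R_mul hf]

theorem eval_lit (p : P.Node) (ρ : ℕ → P.M p.k) (t : Tm) :
    p.str.eval (fun n => p.e (ρ n)) t = p.e (P.eval p.k ρ t) := by
  induction t with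
  | var n => rfl
  | zero => rfl
  | succ t ih => simp only [Str.eval, ih, eval]; simp [Node.str]
  | add s t ihs iht => simp only [Str.eval, ihs, iht, eval]; simp [Node.str]
  | mul s t ihs iht => simp only [Str.eval, ihs, iht, eval]; simp [Node.str]

theorem sat_lit (p : P.Node) (A : Fm) (ρ : ℕ → P.M p.k) :
    p.str.Sat A (fun n => p.e (ρ n)) ↔ P.Sat p.k A ρ := by
  induction A generalizing ρ with
  | eq s t => simp only [Str.Sat, Sat, eval_lit]; exact p.inj.eq_iff
  | bot => rfl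
  | and A B ihA ihB => simp only [Str.Sat, Sat, ihA, ihB]
  | or A B ihA ihB => simp only [Str.Sat, Sat, ihA, ihB]
  | imp A B ihA ihB => simp only [Str.Sat, Sat, ihA, ihB]
  | all A ih =>
    simp only [Str.Sat, Sat]
    constructor
    · intro h a
      rw [← ih, comp_cons]; exact h _ ⟨a, rfl⟩
    · rintro h _ ⟨a, rfl⟩
      rw [← comp_cons, ih]; exact h a
  | ex A ih =>
    simp only [Str.Sat, Sat]
    constructor
    · rintro ⟨_, ⟨a, rfl⟩, h⟩
      rw [← comp_cons, ih] at h; exact ⟨a, h⟩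
    · rintro ⟨a, h⟩
      rw [← ih, comp_cons] at h; exact ⟨_, ⟨a, rfl⟩, h⟩

theorem force_lit (A : Fm) (p : P.Node) (ρ : ℕ → P.M p.k) :
    P.lit.Force A p (fun n => p.e (ρ n)) ↔ P.Force A p.k ρ := by
  induction A generalizing p with
  | eq s t =>
    simp only [Kripke.Force, Force]
    show p.str.eval _ s = p.str.eval _ t ↔ _
    rw [eval_lit, eval_lit]; exact p.inj.eq_iff
  | bot => rfl
  | and A B ihA ihB => simp only [Kripke.Force, Force, ihA, ihB]
  | or A B ihA ihB => simp only [Kripke.Force, Force, ihA, ihB]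
  | imp A B ihA ihB =>
    simp only [Kripke.Force, Force]
    constructor
    · intro h k' f hf hA
      have e : (fun n => p.e (ρ n)) = fun n => (ext p hf).e (f (ρ n)) := by
        funext n; rw [ext_e]
      have := h (ext p hf) (le_ext p hf)
      rw [e] at this
      exact (ihB (ext p hf) (fun n => f (ρ n))).1
        (this ((ihA (ext p hf) (fun n => f (ρ n))).2 hA))
    · intro h q hq
      obtain ⟨f, hf, ef⟩ := forth hq
      have e : (fun n => p.e (ρ n)) = fun n => q.e (f (ρ n)) := by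
        funext n; rw [ef]
      rw [e, ihA q, ihB q]
      exact h _ f hf
  | all A ih =>
    simp only [Kripke.Force, Force]
    constructor
    · intro h k' f hf a
      have e : (fun n => p.e (ρ n)) = fun n => (ext p hf).e (f (ρ n)) := by
        funext n; rw [ext_e]
      have := h (ext p hf) (le_ext p hf) ((ext p hf).e a) ⟨a, rfl⟩
      rw [e] at this
      refine (ih (ext p hf) (cons a (fun n => f (ρ n)))).1 ?_
      have e2 := comp_cons (ext p hf).e a (fun n => f (ρ n))
      exact e2 ▸ this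
    · rintro h q hq _ ⟨a, rfl⟩
      obtain ⟨f, hf, ef⟩ := forth hq
      have e : (fun n => p.e (ρ n)) = fun n => q.e (f (ρ n)) := by
        funext n; rw [ef]
      rw [e, ← comp_cons, ih q]
      exact h _ f hf a
  | ex A ih =>
    simp only [Kripke.Force, Force]
    constructor
    · rintro ⟨_, ⟨a, rfl⟩, h⟩
      rw [← comp_cons, ih] at h; exact ⟨a, h⟩
    · rintro ⟨a, h⟩
      rw [← ih, comp_cons] at h; exact ⟨_, ⟨a, rfl⟩, h⟩

theorem lift_assign (p : P.Node) (ρ : ℕ → P.U) (h : ∀ n, ρ n ∈ p.str.D) :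
    ∃ ρ' : ℕ → P.M p.k, ρ = fun n => p.e (ρ' n) := by
  choose ρ' h' using h
  exact ⟨ρ', funext fun n => (h' n).symm⟩

theorem forces_lit {A : Fm} : P.lit.Forces A ↔ ∀ k ρ, P.Force A k ρ := by
  constructor
  · intro h k ρ
    exact (force_lit A (base k) ρ).1 (h (base k) _ fun n => ⟨_, rfl⟩)
  · intro h p ρ hρ
    obtain ⟨ρ', rfl⟩ := lift_assign p ρ hρ
    exact (force_lit A p ρ').2 (h _ _)

theorem isPA_lit (p : P.Node) : (P.lit.M p).IsPA ↔ ∀ A, Ax A → ∀ ρ, P.Sat p.k A ρ := by
  constructor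
  · intro h A hA ρ
    exact (sat_lit p A ρ).1 (h A hA _ fun n => ⟨_, rfl⟩)
  · intro h A hA ρ hρ
    obtain ⟨ρ', rfl⟩ := lift_assign p ρ hρ
    exact (sat_lit p A ρ').2 (h A hA _)

end Pre

end Pool.Agent.H246Z.HA
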