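import Pool.Agent.H246Z.HALind
import Pool.Agent.H246Z.HALit

/-! The canonical model on maximal omitting Henkin theories; completeness and soundness. -/

set_option autoImplicit false

namespace Pool.Agent.H246Z.HA

/-- Nodes of the canonical model. -/
structure CN (T : Set Fm) where
  Γ : Set Fm
  χ : Fm
  good : Good χ Γ
  ax : HasAx Γ
  sub : T ⊆ Γ

variable {T : Set Fm}

def CN.setoid (k : CN T) : Setoid Tm where
  r s t := Der k.Γ (.eq s t)
  iseqv := ⟨fun t => .refl t, Der.symm, Der.trans⟩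

/-- the term model -/
def CN.M (k : CN T) : Type := Quotient k.setoid

def CN.cl (k : CN T) (t : Tm) : k.M := Quotient.mk k.setoid t

theorem CN.cl_eq (k : CN T) {s t : Tm} : k.cl s = k.cl t ↔ Fm.eq s t ∈ k.Γ := by
  rw [k.good.mem_iff]
  exact Quotient.eq

theorem CN.cl_surj (k : CN T) (a : k.M) : ∃ t, k.cl t = a := Quotient.exists_rep a

theorem CN.lift (k : CN T) (ρ : ℕ → k.M) : ∃ σ : ℕ → Tm, ρ = fun n => k.cl (σ n) := by
  choose σ h using fun n => k.cl_surj (ρ n)
  exact ⟨σ, funext fun n => (h n).symm⟩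

def canon (T : Set Fm) : Pre where
  K := CN T
  M k := k.M
  zero k := k.cl .zero
  succ k := Quotient.map' (s₁ := k.setoid) (s₂ := k.setoid) .succ fun _ _ h => Der.succ_congr h
  add k := Quotient.map₂' (s₁ := k.setoid) (s₂ := k.setoid) (s₃ := k.setoid) .add
    fun _ _ h _ _ h' => Der.add_congr h h'
  mul k := Quotient.map₂' (s₁ := k.setoid) (s₂ := k.setoid) (s₃ := k.setoid) .mul
    fun _ _ h _ _ h' => Der.mul_congr h h'
  R k k' f := ∃ r : ℕ → Tm, (∀ A ∈ k.Γ, A.subst r ∈ k'.Γ) ∧ ∀ t, f (k.cl t) = k'.cl (t.subst r)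
  R_id k := ⟨.var, fun A hA => by rwa [Fm.subst_var], fun t => by rw [Tm.subst_var]; rfl⟩
  R_comp := by
    rintro k k' k'' f g ⟨r, hr, hf⟩ ⟨r', hr', hg⟩
    refine ⟨fun n => (r n).subst r', fun A hA => ?_, fun t => ?_⟩
    · rw [← Fm.subst_subst]; exact hr' _ (hr A hA)
    · rw [← Tm.subst_subst, Function.comp_apply, hf, hg]
  R_inj := by
    rintro k k' f ⟨r, hr, hf⟩ a b hab
    obtain ⟨s, rfl⟩ := k.cl_surj a
    obtain ⟨t, rfl⟩ := k.cl_surj b
    rw [hf, hf, k'.cl_eq] at hab
    rw [k.cl_eq]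
    rcases k.good.or_iff.1 (k.good.mem (k.ax.dec s t)) with h | h
    · exact h
    · exact absurd (k'.good.mem (.impE (.hyp (hr _ h)) (.hyp hab))) k'.good.bot
  R_zero := by
    rintro k k' f ⟨r, hr, hf⟩
    exact hf _
  R_succ := by
    rintro k k' f ⟨r, hr, hf⟩ a
    obtain ⟨s, rfl⟩ := k.cl_surj a
    rw [hf]
    exact hf (.succ s)
  R_add := by
    rintro k k' f ⟨r, hr, hf⟩ a b
    obtain ⟨s, rfl⟩ := k.cl_surj a
    obtain ⟨t, rfl⟩ := k.cl_surj b
    rw [hf, hf]
    exact hf (.add s t)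
  R_mul := by
    rintro k k' f ⟨r, hr, hf⟩ a b
    obtain ⟨s, rfl⟩ := k.cl_surj a
    obtain ⟨t, rfl⟩ := k.cl_surj b
    rw [hf, hf]
    exact hf (.mul s t)

theorem canon_eval (k : CN T) (σ : ℕ → Tm) (t : Tm) :
    (canon T).eval k (fun n => k.cl (σ n)) t = k.cl (t.subst σ) := by
  induction t with
  | var n => rfl
  | zero => rfl
  | succ t ih => simp only [Pre.eval, ih]; rfl
  | add s t ihs iht => simp only [Pre.eval, ihs, iht]; rfl
  | mul s t ihs iht => simp only [Pre.eval, ihs, iht]; rfl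

/-- The map between term models induced by a substitution. -/
def CN.map (k k' : CN T) (r : ℕ → Tm) (hr : ∀ A ∈ k.Γ, A.subst r ∈ k'.Γ) : k.M → k'.M :=
  Quotient.map' (s₁ := k.setoid) (s₂ := k'.setoid) (Tm.subst r)
    fun _ _ h => Der.hyp (hr _ (k.good.mem h))

theorem CN.map_R (k k' : CN T) (r : ℕ → Tm) (hr : ∀ A ∈ k.Γ, A.subst r ∈ k'.Γ) :
    (canon T).R k k' (k.map k' r hr) := ⟨r, hr, fun _ => rfl⟩

theorem extend (hT : ∀ A ∈ T, A.IsSentence) {Γ : Set Fm} (hax : HasAx Γ) (hsub : T ⊆ Γ)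
    (ψ χ : Fm) (h : ¬ Der (insert ψ (Fm.subst dbl '' Γ)) χ) :
    ∃ k' : CN T, (∀ A ∈ Γ, A.subst dbl ∈ k'.Γ) ∧ ψ ∈ k'.Γ ∧ χ ∉ k'.Γ := by
  obtain ⟨Γ', hg, hs⟩ := lind Γ ψ χ h
  have h1 : ∀ A ∈ Γ, A.subst dbl ∈ Γ' := fun A hA =>
    hs (Set.mem_insert_of_mem _ ⟨A, hA, rfl⟩)
  refine ⟨⟨Γ', χ, hg, fun A hA => ?_, fun A hA => ?_⟩, h1, hs (Set.mem_insert _ _),
    fun hχ => hg.nder (.hyp hχ)⟩
  · have := h1 A (hax A hA)
    rwa [hA.isSentence.subst] at this
  · have := h1 A (hsub hA)
    rwa [(hT A hA).subst] at this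

theorem image_dbl_hlf (Γ : Set Fm) : Fm.subst hlf '' (Fm.subst dbl '' Γ) = Γ := by
  rw [Set.image_image]; simp only [dbl_hlf, Set.image_id']

theorem canon_force (hT : ∀ A ∈ T, A.IsSentence) (A : Fm) : ∀ (k : CN T) (σ : ℕ → Tm),
    (canon T).Force A k (fun n => k.cl (σ n)) ↔ A.subst σ ∈ k.Γ := by
  induction A with
  | eq s t =>
    intro k σ
    simp only [Pre.Force, Fm.subst]
    rw [canon_eval, canon_eval]
    exact k.cl_eq
  | bot => intro k σ; exact ⟨False.elim, k.good.bot⟩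
  | and A B ihA ihB =>
    intro k σ
    simp only [Pre.Force, Fm.subst]
    rw [ihA, ihB, k.good.and_iff]
  | or A B ihA ihB =>
    intro k σ
    simp only [Pre.Force, Fm.subst]
    rw [ihA, ihB, k.good.or_iff]
  | imp A B ihA ihB =>
    intro k σ
    simp only [Pre.Force, Fm.subst]
    constructor
    · intro h
      by_contra hn
      have h1 : ¬ Der (insert ((A.subst σ).subst dbl) (Fm.subst dbl '' k.Γ))
          ((B.subst σ).subst dbl) := by
        intro hd
        have := hd.subst hlf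
        rw [Set.image_insert_eq, image_dbl_hlf, dbl_hlf, dbl_hlf] at this
        exact hn (k.good.mem (.impI this))
      obtain ⟨k', hk, hA, hB⟩ := extend hT k.ax k.sub _ _ h1
      rw [Fm.subst_subst] at hA hB
      exact hB ((ihB k' _).1 (h k' _ (k.map_R k' dbl hk) ((ihA k' _).2 hA)))
    · rintro h k' f ⟨r, hr, hf⟩
      have e : (fun n => f (k.cl (σ n))) = fun n => CN.cl k' ((σ n).subst r) :=
        funext fun n => hf _
      rw [e]
      intro hA
      have hA' := (ihA k' _).1 hA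
      refine (ihB k' _).2 ?_
      rw [← Fm.subst_subst] at hA' ⊢
      exact k'.good.mem (.impE (.hyp (hr _ h)) (.hyp hA'))
  | all A ih =>
    intro k σ
    simp only [Pre.Force, Fm.subst]
    constructor
    · intro h
      by_contra hn
      have h1 : ¬ Der (insert (.eq .zero .zero) (Fm.subst dbl '' k.Γ))
          (((A.subst (up σ)).subst (up dbl)).inst (.var 1)) := by
        intro hd
        let τ : ℕ → Tm := fun n => if n % 2 = 0 then .var (n / 2 + 1) else .var 0
        have hτ : (fun n => (dbl n).subst τ) = sh := by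
          funext n; simp [dbl, τ, Tm.subst, sh]
        have := (Der.cut (.refl _) hd).subst τ
        rw [Set.image_image, Fm.up_inst, Fm.subst_subst] at this
        simp only [Fm.subst_subst _ dbl, hτ] at this
        have e : (fun n => (cons (Tm.var 1) dbl n).subst τ) = Tm.var := by
          funext n
          cases n with
          | zero => rfl
          | succ n => exact congrFun hτ n
        rw [e, Fm.subst_var] at this
        exact hn (k.good.mem (.allI this))
      obtain ⟨k', hk, -, hB⟩ := extend hT k.ax k.sub _ _ h1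
      rw [Fm.subst_subst, up_up, Fm.up_inst] at hB
      refine hB ((ih k' _).1 ?_)
      rw [comp_cons k'.cl]
      exact h k' _ (k.map_R k' dbl hk) (k'.cl (.var 1))
    · rintro h k' f ⟨r, hr, hf⟩ a
      obtain ⟨t, rfl⟩ := CN.cl_surj k' a
      have e : (fun n => f (k.cl (σ n))) = fun n => CN.cl k' ((σ n).subst r) :=
        funext fun n => hf _
      rw [e]
      have h2 := k'.good.mem (Der.allE t (.hyp (hr _ h)))
      rw [Fm.subst_subst, up_up, Fm.up_inst] at h2
      have h3 := (ih k' _).2 h2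
      rw [comp_cons (CN.cl k')] at h3
      exact h3
  | ex A ih =>
    intro k σ
    simp only [Pre.Force, Fm.subst]
    rw [k.good.ex_iff]
    constructor
    · rintro ⟨a, h⟩
      obtain ⟨t, rfl⟩ := k.cl_surj a
      refine ⟨t, ?_⟩
      rw [Fm.up_inst]
      refine (ih k _).1 ?_
      rw [comp_cons k.cl]
      exact h
    · rintro ⟨t, h⟩
      rw [Fm.up_inst] at h
      have h3 := (ih k _).2 h
      rw [comp_cons k.cl] at h3
      exact ⟨_, h3⟩

theorem canon_sat (k : CN T) (A : Fm) : ∀ σ : ℕ → Tm,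
    (canon T).Sat k A (fun n => k.cl (σ n)) ↔ star k.χ (A.subst σ) ∈ k.Γ := by
  have g := k.good
  induction A with
  | eq s t =>
    intro σ
    simp only [Pre.Sat, Fm.subst, star]
    rw [canon_eval, canon_eval, g.nn_iff]
    exact k.cl_eq
  | bot => intro σ; exact ⟨False.elim, fun h => g.nder (.hyp h)⟩
  | and A B ihA ihB =>
    intro σ
    simp only [Pre.Sat, Fm.subst, star]
    rw [ihA, ihB, g.and_iff]
  | or A B ihA ihB =>
    intro σ
    simp only [Pre.Sat, Fm.subst, star]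
    rw [ihA, ihB, g.nn_iff, g.or_iff]
  | imp A B ihA ihB =>
    intro σ
    simp only [Pre.Sat, Fm.subst, star]
    rw [ihA, ihB]
    constructor
    · intro h
      by_cases hA : star k.χ (A.subst σ) ∈ k.Γ
      · exact g.mem (.impI (Der.weak _ (.hyp (h hA))))
      · exact g.mem (.impI (star_of _ _ (.impE ((g.imp_of_not hA).weak _) .h0)))
    · intro h hA
      exact g.mem (.impE (.hyp h) (.hyp hA))
  | all A ih =>
    intro σ
    simp only [Pre.Sat, Fm.subst, star]
    constructor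
    · intro h
      have h1 : ∀ t, (star k.χ.shift (A.subst (up σ))).inst t ∈ k.Γ := by
        intro t
        rw [star_inst, Fm.up_inst]
        refine (ih _).1 ?_
        rw [comp_cons k.cl]
        exact h _
      generalize hB : star k.χ.shift (A.subst (up σ)) = B at h1
      have h2 : Fm.ex (B.imp k.χ.shift) ∉ k.Γ := by
        intro h2
        obtain ⟨t, ht⟩ := g.henkin _ h2
        have : (B.imp k.χ.shift).inst t = (B.inst t).imp k.χ := by
          show Fm.imp _ (k.χ.shift.inst t) = _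
          rw [Fm.shift_inst]; rfl
        rw [this] at ht
        exact g.nder (.impE (.hyp ht) (.hyp (h1 t)))
      have h3 := (g.imp_of_not h2).shift
      refine g.mem (.allI ?_)
      have h4 := star_stable (A.subst (up σ)) k.χ.shift (Fm.shift '' k.Γ)
      rw [hB] at h4
      refine .impE h4 (.impI (.impE (A := (Fm.ex (B.imp k.χ.shift)).shift) (h3.weak _) ?_))
      refine .exI (A := (B.imp k.χ.shift).subst (up sh)) (.var 0) ?_
      rw [Fm.up_sh_inst]
      exact .h0
    · intro h a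
      obtain ⟨t, rfl⟩ := k.cl_surj a
      have h2 := g.mem (Der.allE t (.hyp h))
      rw [star_inst, Fm.up_inst] at h2
      have h3 := (ih _).2 h2
      rw [comp_cons k.cl] at h3
      exact h3
  | ex A ih =>
    intro σ
    simp only [Pre.Sat, Fm.subst, star]
    rw [g.nn_iff, g.ex_iff]
    constructor
    · rintro ⟨a, h⟩
      obtain ⟨t, rfl⟩ := k.cl_surj a
      refine ⟨t, ?_⟩
      rw [star_inst, Fm.up_inst]
      refine (ih _).1 ?_
      rw [comp_cons k.cl]
      exact h
    · rintro ⟨t, h⟩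
      rw [star_inst, Fm.up_inst] at h
      have h3 := (ih _).2 h
      rw [comp_cons k.cl] at h3
      exact ⟨_, h3⟩

theorem Pre.sat_allN (P : Pre) (k : P.K) (B : Fm) (h : ∀ ρ, P.Sat k B ρ) (n : ℕ) :
    ∀ ρ, P.Sat k (allN n B) ρ := by
  induction n with
  | zero => exact h
  | succ n ih => exact fun ρ a => ih _

theorem canon_PA (k : CN T) (A : Fm) (hA : Ax A) (ρ : ℕ → k.M) : (canon T).Sat k A ρ := by
  have g := k.good
  cases hA with
  | succ_ne =>
    intro a h
    obtain ⟨t, rfl⟩ := k.cl_surj a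
    exact g.bot (g.mem (.impE (k.ax.succ_ne t) (.hyp (k.cl_eq.1 h))))
  | succ_inj =>
    intro a b h
    obtain ⟨s, rfl⟩ := k.cl_surj a
    obtain ⟨t, rfl⟩ := k.cl_surj b
    exact k.cl_eq.2 (g.mem (.impE (k.ax.succ_inj s t) (.hyp (k.cl_eq.1 h))))
  | add_zero =>
    intro a
    obtain ⟨t, rfl⟩ := k.cl_surj a
    exact k.cl_eq.2 (g.mem (k.ax.add_zero t))
  | add_succ =>
    intro a b
    obtain ⟨s, rfl⟩ := k.cl_surj a
    obtain ⟨t, rfl⟩ := k.cl_surj b
    exact k.cl_eq.2 (g.mem (k.ax.add_succ s t))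
  | mul_zero =>
    intro a
    obtain ⟨t, rfl⟩ := k.cl_surj a
    exact k.cl_eq.2 (g.mem (k.ax.mul_zero t))
  | mul_succ =>
    intro a b
    obtain ⟨s, rfl⟩ := k.cl_surj a
    obtain ⟨t, rfl⟩ := k.cl_surj b
    exact k.cl_eq.2 (g.mem (k.ax.mul_succ s t))
  | induction n A _ =>
    refine (canon T).sat_allN k _ (fun ρ => ?_) n ρ
    obtain ⟨σ, rfl⟩ := k.lift ρ
    refine (canon_sat k _ σ).2 ?_
    rw [ind_subst, star_ind]
    exact g.mem (k.ax.ind _)

theorem completeness (hT : ∀ A ∈ T, A.IsSentence) {φ : Fm} (hφ : φ.IsSentence)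
    (h : ¬ Der ({A | Ax A} ∪ T) φ) :
    ∃ (K : Type) (_ : PartialOrder K) (U : Type) (𝒦 : Kripke K U),
      𝒦.ForcesHA ∧ (∀ A ∈ T, 𝒦.Forces A) ∧ (∀ k, (𝒦.M k).IsPA) ∧ ¬ 𝒦.Forces φ := by
  refine ⟨(canon T).Node, inferInstance, (canon T).U, (canon T).lit, fun A hA => ?_,
    fun A hA => ?_, fun p => (Pre.isPA_lit p).2 fun A hA ρ => canon_PA p.k A hA ρ, ?_⟩
  · refine Pre.forces_lit.2 fun k ρ => ?_
    obtain ⟨σ, rfl⟩ := CN.lift k ρ
    refine (canon_force hT A k σ).2 ?_
    rw [hA.isSentence.subst]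
    exact k.ax A hA
  · refine Pre.forces_lit.2 fun k ρ => ?_
    obtain ⟨σ, rfl⟩ := CN.lift k ρ
    refine (canon_force hT A k σ).2 ?_
    rw [(hT A hA).subst]
    exact k.sub hA
  · intro hf
    have h1 : ¬ Der (insert (.eq .zero .zero) (Fm.subst dbl '' ({A | Ax A} ∪ T))) φ := by
      intro hd
      have := (Der.cut (.refl _) hd).subst hlf
      rw [image_dbl_hlf, hφ.subst] at this
      exact h this
    obtain ⟨k, -, -, hk⟩ := extend hT (Γ := {A | Ax A} ∪ T) (fun A hA => Or.inl hA)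
      Set.subset_union_right _ _ h1
    have := (canon_force hT φ k .var).1 (Pre.forces_lit.1 hf k _)
    rw [Fm.subst_var] at this
    exact hk this

end Pool.Agent.H246Z.HA
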