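import Mathlib

/-!
First-order arithmetic: terms, formulas, intuitionistic natural deduction, the axioms of
Heyting / Peano arithmetic, classical structures and Kripke models.
Variables are de Bruijn indices.
-/

set_option autoImplicit false

namespace Pool.Agent.H246Z.HA

/-- Terms of the language `0, S, +, ·`; variables are de Bruijn indices. -/
inductive Tm : Type
  | var : ℕ → Tm
  | zero : Tm
  | succ : Tm → Tm
  | add : Tm → Tm → Tm
  | mul : Tm → Tm → Tm

/-- Formulas built from equations with `⊥, ∧, ∨, →, ∀, ∃`; a quantifier binds the index `0`. -/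
inductive Fm : Type
  | eq : Tm → Tm → Fm
  | bot : Fm
  | and : Fm → Fm → Fm
  | or : Fm → Fm → Fm
  | imp : Fm → Fm → Fm
  | all : Fm → Fm
  | ex : Fm → Fm

/-- The sequence `a, ρ 0, ρ 1, ...`. -/
def cons {α : Type} (a : α) (ρ : ℕ → α) : ℕ → α
  | 0 => a
  | n + 1 => ρ n

/-- Simultaneous substitution of the terms `σ n` for the variables `n` in a term. -/
def Tm.subst (σ : ℕ → Tm) : Tm → Tm
  | .var n => σ n
  | .zero => .zero
  | .succ t => .succ (t.subst σ)
  | .add s t => .add (s.subst σ) (t.subst σ)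
  | .mul s t => .mul (s.subst σ) (t.subst σ)

/-- The substitution `σ` moved under one quantifier. -/
def up (σ : ℕ → Tm) : ℕ → Tm :=
  cons (.var 0) (fun n => (σ n).subst (fun m => .var (m + 1)))

/-- Simultaneous (capture-free) substitution in a formula. -/
def Fm.subst : (ℕ → Tm) → Fm → Fm
  | σ, .eq s t => .eq (s.subst σ) (t.subst σ)
  | _, .bot => .bot
  | σ, .and A B => .and (A.subst σ) (B.subst σ)
  | σ, .or A B => .or (A.subst σ) (B.subst σ)
  | σ, .imp A B => .imp (A.subst σ) (B.subst σ)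
  | σ, .all A => .all (A.subst (up σ))
  | σ, .ex A => .ex (A.subst (up σ))

/-- Every free variable `n` of `A` is renamed to `n + 1`, so that the variable `0` is fresh. -/
def Fm.shift (A : Fm) : Fm := A.subst (fun n => .var (n + 1))

/-- `A(t)`: the term `t` is put for the variable `0` (the body of a quantifier instantiated). -/
def Fm.inst (A : Fm) (t : Tm) : Fm := A.subst (cons t .var)

/-- All variables of the term are `< n`. -/
def Tm.Bdd (n : ℕ) : Tm → Prop
  | .var m => m < n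
  | .zero => True
  | .succ t => t.Bdd n
  | .add s t => s.Bdd n ∧ t.Bdd n
  | .mul s t => s.Bdd n ∧ t.Bdd n

/-- All free variables of the formula are `< n`. -/
def Fm.Bdd : ℕ → Fm → Prop
  | n, .eq s t => s.Bdd n ∧ t.Bdd n
  | _, .bot => True
  | n, .and A B => A.Bdd n ∧ B.Bdd n
  | n, .or A B => A.Bdd n ∧ B.Bdd n
  | n, .imp A B => A.Bdd n ∧ B.Bdd n
  | n, .all A => A.Bdd (n + 1)
  | n, .ex A => A.Bdd (n + 1)

/-- A sentence is a formula without free variables. -/
def Fm.IsSentence (A : Fm) : Prop := A.Bdd 0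

/-- Intuitionistic natural deduction with equality: `Der Γ A` means `Γ ⊢ᵢ A`. -/
inductive Der : Set Fm → Fm → Prop
  | hyp {Γ : Set Fm} {A : Fm} : A ∈ Γ → Der Γ A
  | botE {Γ : Set Fm} {A : Fm} : Der Γ .bot → Der Γ A
  | andI {Γ : Set Fm} {A B : Fm} : Der Γ A → Der Γ B → Der Γ (.and A B)
  | andE₁ {Γ : Set Fm} {A B : Fm} : Der Γ (.and A B) → Der Γ A
  | andE₂ {Γ : Set Fm} {A B : Fm} : Der Γ (.and A B) → Der Γ B
  | orI₁ {Γ : Set Fm} {A B : Fm} : Der Γ A → Der Γ (.or A B)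
  | orI₂ {Γ : Set Fm} {A B : Fm} : Der Γ B → Der Γ (.or A B)
  | orE {Γ : Set Fm} {A B C : Fm} :
      Der Γ (.or A B) → Der (insert A Γ) C → Der (insert B Γ) C → Der Γ C
  | impI {Γ : Set Fm} {A B : Fm} : Der (insert A Γ) B → Der Γ (.imp A B)
  | impE {Γ : Set Fm} {A B : Fm} : Der Γ (.imp A B) → Der Γ A → Der Γ B
  | allI {Γ : Set Fm} {A : Fm} : Der (Fm.shift '' Γ) A → Der Γ (.all A)
  | allE {Γ : Set Fm} {A : Fm} (t : Tm) : Der Γ (.all A) → Der Γ (A.inst t)
  | exI {Γ : Set Fm} {A : Fm} (t : Tm) : Der Γ (A.inst t) → Der Γ (.ex A)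
  | exE {Γ : Set Fm} {A C : Fm} :
      Der Γ (.ex A) → Der (insert A (Fm.shift '' Γ)) C.shift → Der Γ C
  | refl {Γ : Set Fm} (t : Tm) : Der Γ (.eq t t)
  | eqE {Γ : Set Fm} {s t : Tm} (A : Fm) : Der Γ (.eq s t) → Der Γ (A.inst s) → Der Γ (A.inst t)

/-- `n` universal quantifiers in front of a formula. -/
def allN : ℕ → Fm → Fm
  | 0, A => A
  | n + 1, A => .all (allN n A)

/-- The induction instance `A(0) ∧ ∀ x (A(x) → A(S x)) → ∀ x A(x)`; `x` is the variable `0` of `A`. -/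
def ind (A : Fm) : Fm :=
  .imp (.and (A.inst .zero)
      (.all (.imp A (A.subst (cons (.succ (.var 0)) (fun n => .var (n + 1)))))))
    (.all A)

/-- The axioms of arithmetic, common to `HA` and `PA`: the six defining axioms and the universal
closure of every induction instance. -/
inductive Ax : Fm → Prop
  | succ_ne : Ax (.all (.imp (.eq (.succ (.var 0)) .zero) .bot))
  | succ_inj :
      Ax (.all (.all (.imp (.eq (.succ (.var 1)) (.succ (.var 0))) (.eq (.var 1) (.var 0)))))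
  | add_zero : Ax (.all (.eq (.add (.var 0) .zero) (.var 0)))
  | add_succ :
      Ax (.all (.all (.eq (.add (.var 1) (.succ (.var 0))) (.succ (.add (.var 1) (.var 0))))))
  | mul_zero : Ax (.all (.eq (.mul (.var 0) .zero) .zero))
  | mul_succ :
      Ax (.all (.all (.eq (.mul (.var 1) (.succ (.var 0)))
        (.add (.mul (.var 1) (.var 0)) (.var 1)))))
  | induction (n : ℕ) (A : Fm) : A.Bdd (n + 1) → Ax (allN n (ind A))

/-- A classical structure for the language of arithmetic whose domain `D` is a subset of `U`. -/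
structure Str (U : Type) where
  D : Set U
  zero : U
  succ : U → U
  add : U → U → U
  mul : U → U → U
  zero_mem : zero ∈ D
  succ_mem : ∀ a ∈ D, succ a ∈ D
  add_mem : ∀ a ∈ D, ∀ b ∈ D, add a b ∈ D
  mul_mem : ∀ a ∈ D, ∀ b ∈ D, mul a b ∈ D

/-- `M` is a substructure of `N`. -/
def Str.Sub {U : Type} (M N : Str U) : Prop :=
  M.D ⊆ N.D ∧ M.zero = N.zero ∧ (∀ a ∈ M.D, M.succ a = N.succ a) ∧
    (∀ a ∈ M.D, ∀ b ∈ M.D, M.add a b = N.add a b) ∧
    (∀ a ∈ M.D, ∀ b ∈ M.D, M.mul a b = N.mul a b)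

/-- The value of a term under the assignment `ρ`. -/
def Str.eval {U : Type} (M : Str U) (ρ : ℕ → U) : Tm → U
  | .var n => ρ n
  | .zero => M.zero
  | .succ t => M.succ (M.eval ρ t)
  | .add s t => M.add (M.eval ρ s) (M.eval ρ t)
  | .mul s t => M.mul (M.eval ρ s) (M.eval ρ t)

/-- Classical (Tarski) satisfaction under the assignment `ρ`. -/
def Str.Sat {U : Type} (M : Str U) : Fm → (ℕ → U) → Prop
  | .eq s t, ρ => M.eval ρ s = M.eval ρ t
  | .bot, _ => False
  | .and A B, ρ => M.Sat A ρ ∧ M.Sat B ρ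
  | .or A B, ρ => M.Sat A ρ ∨ M.Sat B ρ
  | .imp A B, ρ => M.Sat A ρ → M.Sat B ρ
  | .all A, ρ => ∀ a ∈ M.D, M.Sat A (cons a ρ)
  | .ex A, ρ => ∃ a ∈ M.D, M.Sat A (cons a ρ)

/-- `M ⊨ PA`: every axiom of arithmetic is classically true in `M`. -/
def Str.IsPA {U : Type} (M : Str U) : Prop :=
  ∀ A, Ax A → ∀ ρ : ℕ → U, (∀ n, ρ n ∈ M.D) → M.Sat A ρ

/-- A Kripke model on the partial order `K`: a classical structure at each node, the structure at
`k` being a substructure of the structure at `k'` whenever `k ≤ k'`. -/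
structure Kripke (K : Type) [PartialOrder K] (U : Type) where
  M : K → Str U
  sub : ∀ k k', k ≤ k' → (M k).Sub (M k')

/-- Forcing at the node `k` under the assignment `ρ`. -/
def Kripke.Force {K : Type} [PartialOrder K] {U : Type} (𝒦 : Kripke K U) :
    Fm → K → (ℕ → U) → Prop
  | .eq s t, k, ρ => (𝒦.M k).eval ρ s = (𝒦.M k).eval ρ t
  | .bot, _, _ => False
  | .and A B, k, ρ => 𝒦.Force A k ρ ∧ 𝒦.Force B k ρ
  | .or A B, k, ρ => 𝒦.Force A k ρ ∨ 𝒦.Force B k ρ
  | .imp A B, k, ρ => ∀ k', k ≤ k' → 𝒦.Force A k' ρ → 𝒦.Force B k' ρ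
  | .all A, k, ρ => ∀ k', k ≤ k' → ∀ a ∈ (𝒦.M k').D, 𝒦.Force A k' (cons a ρ)
  | .ex A, k, ρ => ∃ a ∈ (𝒦.M k).D, 𝒦.Force A k (cons a ρ)

/-- `𝒦 ⊩ A`: every node forces `A` (under every assignment into the domain of the node). -/
def Kripke.Forces {K : Type} [PartialOrder K] {U : Type} (𝒦 : Kripke K U) (A : Fm) : Prop :=
  ∀ k, ∀ ρ : ℕ → U, (∀ n, ρ n ∈ (𝒦.M k).D) → 𝒦.Force A k ρ

/-- `𝒦 ⊩ HA`: the model forces every axiom of arithmetic. -/
def Kripke.ForcesHA {K : Type} [PartialOrder K] {U : Type} (𝒦 : Kripke K U) : Prop :=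
  ∀ A, Ax A → 𝒦.Forces A

end Pool.Agent.H246Z.HA
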