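import Pool.Agent.H246Z.HASyn

/-! Lindenbaum lemma, object-level arithmetic, and the relativised negative translation. -/

set_option autoImplicit false

namespace Pool.Agent.H246Z.HA

deriving instance Countable for Tm
deriving instance Countable for Fm

/-- `A` depends only on the variables in `S`. -/
def Dep (S : Set ℕ) (A : Fm) : Prop :=
  ∀ σ τ : ℕ → Tm, (∀ n ∈ S, σ n = τ n) → A.subst σ = A.subst τ

theorem Dep.mono {S S' : Set ℕ} {A : Fm} (h : Dep S A) (s : S ⊆ S') : Dep S' A :=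
  fun σ τ e => h σ τ fun n hn => e n (s hn)

theorem exists_dep (A : Fm) : ∃ N, Dep (Set.Iio N) A := by
  obtain ⟨N, hN⟩ := A.exists_bdd
  exact ⟨N, fun σ τ e => hN.congr e⟩

/-- doubling of variables -/
def dbl : ℕ → Tm := fun n => .var (2 * n)

/-- halving of variables -/
def hlf : ℕ → Tm := fun n => .var (n / 2)

theorem dep_dbl (A : Fm) : Dep {n | Even n} (A.subst dbl) := by
  intro σ τ e
  rw [Fm.subst_subst, Fm.subst_subst]
  congr 1
  funext n
  exact e (2 * n) (even_two_mul n)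

theorem dbl_hlf (A : Fm) : (A.subst dbl).subst hlf = A := by
  rw [Fm.subst_subst]
  have : (fun n => (dbl n).subst hlf) = Tm.var := by
    funext n; simp [dbl, hlf, Tm.subst]
  rw [this, Fm.subst_var]

structure Good (χ : Fm) (Γ : Set Fm) : Prop where
  nder : ¬ Der Γ χ
  maxi : ∀ B, B ∈ Γ ∨ Der Γ (B.imp χ)
  henkin : ∀ A, .ex A ∈ Γ → ∃ t, A.inst t ∈ Γ

def Stage (χ : Fm) (Γ : Set Fm) : Prop :=
  ¬ Der Γ χ ∧ ∃ N, ∀ A ∈ Γ, Dep ({n | Even n} ∪ Set.Iio N) A

theorem fresh_witness {Δ : Set Fm} {A χ : Fm} {c : ℕ} (hA : .ex A ∈ Δ)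
    (hΔ : ∀ B ∈ Δ, Dep {c}ᶜ B) (hχ : Dep {c}ᶜ χ)
    (h : Der (insert (A.inst (.var c)) Δ) χ) : Der Δ χ := by
  let τ : ℕ → Tm := fun n => if n = c then .var 0 else .var (n + 1)
  have hτ : ∀ n ∈ ({c}ᶜ : Set ℕ), τ n = sh n := by
    intro n hn
    have : n ≠ c := hn
    simp [τ, this, sh]
  have h1 := h.subst τ
  have e1 : Fm.subst τ '' Δ = Fm.shift '' Δ :=
    Set.image_congr fun B hB => hΔ B hB τ sh hτ
  have e2 : χ.subst τ = χ.shift := hχ τ sh hτ
  have e3 : (A.inst (.var c)).subst τ = A := by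
    have := hΔ _ hA τ sh hτ
    simp only [Fm.subst, Fm.ex.injEq] at this
    rw [Fm.inst_subst, this]
    simp only [Tm.subst, τ, if_true]
    exact A.up_sh_inst
  rw [Set.image_insert_eq, e1, e2, e3] at h1
  exact .exE (.hyp hA) h1

theorem stage_step {χ : Fm} {Γ : Set Fm} (h : Stage χ Γ) (B : Fm) :
    ∃ Γ', Stage χ Γ' ∧ Γ ⊆ Γ' ∧ (B ∈ Γ' ∨ Der Γ (B.imp χ)) ∧
      ∀ A, B = .ex A → B ∈ Γ' → ∃ t, A.inst t ∈ Γ' := by
  obtain ⟨h1, N, hN⟩ := h
  by_cases hB : Der (insert B Γ) χ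
  · refine ⟨Γ, ⟨h1, N, hN⟩, le_rfl, Or.inr (.impI hB), fun A _ hA => ?_⟩
    rw [Set.insert_eq_of_mem hA] at hB
    exact absurd hB h1
  obtain ⟨N1, hN1⟩ := exists_dep B
  obtain ⟨N2, hN2⟩ := exists_dep χ
  have hins : ∀ A ∈ insert B Γ, Dep ({n | Even n} ∪ Set.Iio (N + N1)) A := by
    rintro A (rfl | hA)
    · exact hN1.mono fun n hn => Or.inr (by simp at hn ⊢; omega)
    · refine (hN A hA).mono ?_
      rintro n (hn | hn)
      · exact Or.inl hn
      · exact Or.inr (by simp at hn ⊢; omega)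
  by_cases hex : ∃ A, B = .ex A
  · obtain ⟨A, rfl⟩ := hex
    let c := 2 * (N + N1 + N2) + 1
    obtain ⟨N3, hN3⟩ := exists_dep (A.inst (.var c))
    refine ⟨insert (A.inst (.var c)) (insert (.ex A) Γ), ⟨fun hd => hB ?_, N + N1 + N3, ?_⟩,
      (Set.subset_insert _ _).trans (Set.subset_insert _ _),
      Or.inl (Set.mem_insert_of_mem _ (Set.mem_insert _ _)), ?_⟩
    · refine fresh_witness (Set.mem_insert _ _) (fun C hC => (hins C hC).mono ?_)
        (hN2.mono ?_) hd
      · rintro n (hn | hn) rfl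
        · exact (Nat.not_even_iff_odd.2 ⟨_, rfl⟩) hn
        · simp [c] at hn; omega
      · rintro n hn rfl
        simp [c] at hn; omega
    · rintro C (rfl | hC)
      · exact hN3.mono fun n hn => Or.inr (by simp at hn ⊢; omega)
      · refine (hins C hC).mono ?_
        rintro n (hn | hn)
        · exact Or.inl hn
        · exact Or.inr (by simp at hn ⊢; omega)
    · intro A' hA' _
      cases hA'
      exact ⟨_, Set.mem_insert _ _⟩
  · exact ⟨insert B Γ, ⟨hB, _, hins⟩, Set.subset_insert _ _, Or.inl (Set.mem_insert _ _),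
      fun A hA _ => absurd ⟨A, hA⟩ hex⟩

theorem lindenbaum {χ : Fm} {Γ : Set Fm} (h : Stage χ Γ) : ∃ Γ', Good χ Γ' ∧ Γ ⊆ Γ' := by
  haveI : Nonempty Fm := ⟨.bot⟩
  obtain ⟨en, hen⟩ := exists_surjective_nat Fm
  choose st st1 st2 st3 st4 using fun (p : {Γ // Stage χ Γ}) (B : Fm) => stage_step p.2 B
  let S : ℕ → {Γ // Stage χ Γ} := fun n =>
    Nat.rec ⟨Γ, h⟩ (fun n p => ⟨st p (en n), st1 p (en n)⟩) n
  have hS : ∀ n, (S (n + 1)).1 = st (S n) (en n) := fun n => rfl
  have mono : Monotone fun n => (S n).1 :=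
    monotone_nat_of_le_succ fun n => by rw [hS]; exact st2 _ _
  have sub : ∀ n, (S n).1 ⊆ ⋃ n, (S n).1 := fun n => Set.subset_iUnion (fun n => (S n).1) n
  have nd : ¬ Der (⋃ n, (S n).1) χ := by
    intro hd
    obtain ⟨n, hn⟩ := hd.chain _ mono le_rfl
    exact (S n).2.1 hn
  refine ⟨⋃ n, (S n).1, ⟨nd, fun B => ?_, fun A hA => ?_⟩, sub 0⟩
  · obtain ⟨n, rfl⟩ := hen B
    rcases st3 (S n) (en n) with h1 | h1
    · exact Or.inl (sub (n + 1) h1)
    · exact Or.inr (h1.mono (sub n))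
  · obtain ⟨n, hn⟩ := hen (.ex A)
    rcases st3 (S n) (en n) with h1 | h1
    · obtain ⟨t, ht⟩ := st4 (S n) (en n) A hn h1
      exact ⟨t, sub (n + 1) ht⟩
    · rw [hn] at h1
      exact absurd (Der.impE (h1.mono (sub n)) (.hyp hA)) nd

theorem lind (Γ : Set Fm) (ψ χ : Fm) (h : ¬ Der (insert ψ (Fm.subst dbl '' Γ)) χ) :
    ∃ Γ', Good χ Γ' ∧ insert ψ (Fm.subst dbl '' Γ) ⊆ Γ' := by
  obtain ⟨N, hN⟩ := exists_dep ψ
  refine lindenbaum ⟨h, N, ?_⟩
  rintro A (rfl | ⟨B, -, rfl⟩)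
  · exact hN.mono Set.subset_union_right
  · exact (dep_dbl B).mono Set.subset_union_left

namespace Good

variable {χ : Fm} {Γ : Set Fm}

theorem mem (h : Good χ Γ) {B : Fm} (hB : Der Γ B) : B ∈ Γ :=
  (h.maxi B).resolve_right fun h' => h.nder (.impE h' hB)

theorem mem_iff (h : Good χ Γ) {B : Fm} : B ∈ Γ ↔ Der Γ B := ⟨.hyp, h.mem⟩

theorem bot (h : Good χ Γ) : .bot ∉ Γ := fun hb => h.nder (.botE (.hyp hb))

theorem imp_of_not (h : Good χ Γ) {B : Fm} (hB : B ∉ Γ) : Der Γ (B.imp χ) :=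
  (h.maxi B).resolve_left hB

theorem and_iff (h : Good χ Γ) {B C : Fm} : .and B C ∈ Γ ↔ B ∈ Γ ∧ C ∈ Γ :=
  ⟨fun h' => ⟨h.mem (.andE₁ (.hyp h')), h.mem (.andE₂ (.hyp h'))⟩,
    fun h' => h.mem (.andI (.hyp h'.1) (.hyp h'.2))⟩

theorem or_iff (h : Good χ Γ) {B C : Fm} : .or B C ∈ Γ ↔ B ∈ Γ ∨ C ∈ Γ := by
  constructor
  · intro h'
    by_contra hn
    rw [not_or] at hn
    exact h.nder (.orE (.hyp h') (.impE ((h.imp_of_not hn.1).weak _) .h0)
      (.impE ((h.imp_of_not hn.2).weak _) .h0))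
  · rintro (h' | h')
    · exact h.mem (.orI₁ (.hyp h'))
    · exact h.mem (.orI₂ (.hyp h'))

theorem ex_iff (h : Good χ Γ) {A : Fm} : .ex A ∈ Γ ↔ ∃ t, A.inst t ∈ Γ :=
  ⟨h.henkin A, fun ⟨t, ht⟩ => h.mem (.exI t (.hyp ht))⟩

theorem nn_iff (h : Good χ Γ) {B : Fm} : (B.imp χ).imp χ ∈ Γ ↔ B ∈ Γ := by
  constructor
  · intro h'
    by_contra hn
    exact h.nder (.impE (.hyp h') (h.imp_of_not hn))
  · intro h'
    exact h.mem (.impI (.impE .h0 (.hyp (Set.mem_insert_of_mem _ h'))))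

end Good

/-! ### Arithmetic inside the calculus -/

/-- `Γ` contains the axioms -/
def HasAx (Γ : Set Fm) : Prop := ∀ A, Ax A → A ∈ Γ

theorem HasAx.shift {Γ : Set Fm} (h : HasAx Γ) : HasAx (Fm.shift '' Γ) :=
  fun A hA => ⟨A, h A hA, hA.isSentence.subst _⟩

theorem HasAx.insert {Γ : Set Fm} (h : HasAx Γ) (B : Fm) : HasAx (insert B Γ) :=
  fun A hA => Set.mem_insert_of_mem _ (h A hA)

theorem allN_elim {Γ : Set Fm} (σ : ℕ → Tm) (B : Fm) (n : ℕ) (τ : ℕ → Tm)
    (h : Der Γ ((allN n B).subst τ)) :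
    Der Γ (B.subst fun i => if i < n then σ i else τ (i - n)) := by
  induction n generalizing τ with
  | zero => simpa [allN] using h
  | succ n ih =>
    have h1 := Der.allE (σ n) h
    rw [Fm.up_inst] at h1
    have h2 := ih _ h1
    have e : (fun i => if i < n then σ i else cons (σ n) τ (i - n)) =
        fun i => if i < n + 1 then σ i else τ (i - (n + 1)) := by
      funext i
      by_cases h1 : i < n
      · simp [h1, Nat.lt_succ_of_lt h1]
      · by_cases h2 : i = n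
        · subst h2; simp
        · obtain ⟨j, rfl⟩ : ∃ j, i = n + (j + 1) := ⟨i - n - 1, by omega⟩
          rw [if_neg h1, if_neg (by omega), show n + (j + 1) - n = j + 1 by omega,
            show n + (j + 1) - (n + 1) = j by omega, cons_succ]
    rwa [e] at h2

theorem HasAx.ind {Γ : Set Fm} (h : HasAx Γ) (A : Fm) : Der Γ (ind A) := by
  obtain ⟨n, hn⟩ := A.exists_bdd
  have hb : A.Bdd (n + 1) := hn.mono (Nat.le_succ n)
  have h1 : Der Γ ((allN n (HA.ind A)).subst .var) := by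
    rw [Fm.subst_var]; exact .hyp (h _ (.induction n A hb))
  have h2 := allN_elim .var _ _ _ h1
  rwa [(ind_bdd hb).congr (τ := .var) (fun i hi => by simp [hi]), Fm.subst_var] at h2

theorem HasAx.induct {Γ : Set Fm} (h : HasAx Γ) (A : Fm) (h0 : Der Γ (A.inst .zero))
    (hs : Der (Insert.insert A (Fm.shift '' Γ)) (A.subst (cons (.succ (.var 0)) sh))) :
    Der Γ (.all A) :=
  .impE (h.ind A) (.andI h0 (.allI (.impI hs)))

theorem HasAx.succ_ne {Γ : Set Fm} (h : HasAx Γ) (t : Tm) :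
    Der Γ (.imp (.eq (.succ t) .zero) .bot) := by
  simpa [Fm.inst, Fm.subst, Tm.subst] using Der.allE t (.hyp (h _ .succ_ne))

theorem HasAx.succ_inj {Γ : Set Fm} (h : HasAx Γ) (s t : Tm) :
    Der Γ (.imp (.eq (.succ s) (.succ t)) (.eq s t)) := by
  have h1 := Der.allE s (.hyp (h _ .succ_inj))
  simp only [Fm.inst, Fm.subst] at h1
  have h2 := Der.allE t h1
  simpa [Fm.inst, Fm.subst, Tm.subst, Tm.sh_cons] using h2

theorem HasAx.add_zero {Γ : Set Fm} (h : HasAx Γ) (t : Tm) : Der Γ (.eq (.add t .zero) t) := by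
  simpa [Fm.inst, Fm.subst, Tm.subst] using Der.allE t (.hyp (h _ .add_zero))

theorem HasAx.mul_zero {Γ : Set Fm} (h : HasAx Γ) (t : Tm) :
    Der Γ (.eq (.mul t .zero) .zero) := by
  simpa [Fm.inst, Fm.subst, Tm.subst] using Der.allE t (.hyp (h _ .mul_zero))

theorem HasAx.add_succ {Γ : Set Fm} (h : HasAx Γ) (s t : Tm) :
    Der Γ (.eq (.add s (.succ t)) (.succ (.add s t))) := by
  have h1 := Der.allE s (.hyp (h _ .add_succ))
  simp only [Fm.inst, Fm.subst] at h1
  have h2 := Der.allE t h1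
  simpa [Fm.inst, Fm.subst, Tm.subst, Tm.sh_cons] using h2

theorem HasAx.mul_succ {Γ : Set Fm} (h : HasAx Γ) (s t : Tm) :
    Der Γ (.eq (.mul s (.succ t)) (.add (.mul s t) s)) := by
  have h1 := Der.allE s (.hyp (h _ .mul_succ))
  simp only [Fm.inst, Fm.subst] at h1
  have h2 := Der.allE t h1
  simpa [Fm.inst, Fm.subst, Tm.subst, Tm.sh_cons] using h2

/-- `s = t ∨ ¬ s = t` -/
def decF (s t : Tm) : Fm := .or (.eq s t) (.imp (.eq s t) .bot)

theorem decF_subst (s t : Tm) (σ : ℕ → Tm) :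
    (decF s t).subst σ = decF (s.subst σ) (t.subst σ) := rfl

theorem HasAx.dec {Γ : Set Fm} (h : HasAx Γ) (s t : Tm) : Der Γ (decF s t) := by
  have key : Der Γ (.all (.all (decF (.var 1) (.var 0)))) := by
    refine h.induct _ ?_ ?_
    · show Der Γ (.all (decF .zero (.var 0)))
      refine h.induct _ (.orI₁ (.refl _)) ?_
      show Der _ (decF .zero (.succ (.var 0)))
      exact .orI₂ (.impI (.impE (((h.shift.insert _).insert _).succ_ne _) (Der.symm .h0)))
    · show Der _ (.all (decF (.succ (.var 1)) (.var 0)))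
      have h' := h.shift.insert (.all (decF (.var 1) (.var 0)))
      refine h'.induct _ (.orI₂ (h'.succ_ne _)) ?_
      show Der _ (decF (.succ (.var 1)) (.succ (.var 0)))
      have h'' := h'.shift.insert (decF (.succ (.var 1)) (.var 0))
      have h3 : Der (Insert.insert (decF (.succ (.var 1)) (.var 0)) (Fm.shift ''
          (Insert.insert (.all (decF (.var 1) (.var 0))) (Fm.shift '' Γ))))
          (decF (.var 1) (.var 0)) :=
        Der.allE (A := decF (.var 2) (.var 0)) (.var 0)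
          (.hyp (Set.mem_insert_of_mem _ ⟨_, Set.mem_insert _ _, rfl⟩))
      refine .orE h3 (.orI₁ (Der.succ_congr .h0)) (.orI₂ (.impI ?_))
      exact .impE (Der.weak _ .h0) (.impE (((h''.insert _).insert _).succ_inj _ _) .h0)
  have h1 := Der.allE s key
  simp only [Fm.inst, Fm.subst] at h1
  have h2 := Der.allE t h1
  simpa [Fm.inst, decF_subst, Tm.subst, Tm.sh_cons] using h2

/-! ### The negative translation relative to a formula -/

/-- The negative translation in which `χ` plays the role of falsity. -/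
def star : Fm → Fm → Fm
  | χ, .eq s t => ((Fm.eq s t).imp χ).imp χ
  | χ, .bot => χ
  | χ, .and A B => .and (star χ A) (star χ B)
  | χ, .or A B => ((Fm.or (star χ A) (star χ B)).imp χ).imp χ
  | χ, .imp A B => .imp (star χ A) (star χ B)
  | χ, .all A => .all (star χ.shift A)
  | χ, .ex A => ((Fm.ex (star χ.shift A)).imp χ).imp χ

theorem star_subst (A χ : Fm) (σ : ℕ → Tm) :
    (star χ A).subst σ = star (χ.subst σ) (A.subst σ) := by
  induction A generalizing χ σ <;> simp_all [star, Fm.subst, Fm.shift_subst_up]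

theorem star_inst (A χ : Fm) (t : Tm) : (star χ.shift A).inst t = star χ (A.inst t) := by
  rw [Fm.inst, star_subst, Fm.shift_subst_cons, Fm.subst_var]; rfl

theorem star_ind (A χ : Fm) : star χ (ind A) = ind (star χ.shift A) := by
  simp only [ind, star, star_inst, star_subst]
  congr 5
  rw [Fm.shift_subst_cons]; rfl

theorem tneg {Γ : Set Fm} {B χ : Fm} :
    Der Γ ((((((B.imp χ).imp χ).imp χ).imp χ)).imp ((B.imp χ).imp χ)) :=
  .impI (.impI (.impE (Der.weak _ .h0) (.impI (.impE .h0 (Der.weak _ .h0)))))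

theorem star_stable (A : Fm) : ∀ (χ : Fm) (Γ : Set Fm),
    Der Γ ((((star χ A).imp χ).imp χ).imp (star χ A)) := by
  induction A with
  | eq s t => exact fun _ _ => tneg
  | bot => exact fun _ _ => .impI (.impE .h0 (.impI .h0))
  | and A B ihA ihB =>
    intro χ Γ
    refine .impI (.andI (.impE (ihA _ _) ?_) (.impE (ihB _ _) ?_))
    · exact .impI (.impE (Der.weak _ .h0) (.impI (.impE (Der.weak _ .h0) (.andE₁ .h0))))
    · exact .impI (.impE (Der.weak _ .h0) (.impI (.impE (Der.weak _ .h0) (.andE₂ .h0))))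
  | or A B _ _ => exact fun _ _ => tneg
  | imp A B _ ihB =>
    intro χ Γ
    refine .impI (.impI (.impE (ihB _ _) (.impI ?_)))
    exact .impE (Der.weak _ (Der.weak _ .h0))
      (.impI (.impE (Der.weak _ .h0) (.impE .h0 (Der.weak _ (Der.weak _ .h0)))))
  | all A ih =>
    intro χ Γ
    refine .impI (.allI (.impE (ih _ _) (.impI ?_)))
    rw [Set.image_insert_eq]
    refine .impE (A := (Fm.imp (star χ (.all A)) χ).shift) (Der.weak _ .h0) (.impI ?_)
    refine .impE (Der.weak _ .h0) ?_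
    have := Der.allE (Γ := Insert.insert (star χ (.all A)).shift
      (Insert.insert ((star χ.shift A).imp χ.shift)
      (Insert.insert (((star χ (.all A)).imp χ).imp χ).shift (Fm.shift '' Γ))))
      (A := (star χ.shift A).subst (up sh)) (.var 0) .h0
    rwa [Fm.up_sh_inst] at this
  | ex A _ => exact fun _ _ => tneg

theorem star_of (A χ : Fm) {Γ : Set Fm} (h : Der Γ χ) : Der Γ (star χ A) :=
  .impE (star_stable A χ Γ) (.impI (h.weak _))

end Pool.Agent.H246Z.HA
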