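import Pool.Agent.H246Z.HAReal

/-! No recursive reduced power over a nonstandard decisive filter satisfies `PA`. -/

set_option autoImplicit false

namespace Pool.Agent.H246Z.HA

open Filter

theorem Pre.eval_subst (P : Pre) (k : P.K) (ρ : ℕ → P.M k) (σ : ℕ → Tm) (t : Tm) :
    P.eval k ρ (t.subst σ) = P.eval k (fun n => P.eval k ρ (σ n)) t := by
  induction t <;> simp_all [Pre.eval, Tm.subst]

theorem Pre.eval_up (P : Pre) (k : P.K) (ρ : ℕ → P.M k) (σ : ℕ → Tm) (a : P.M k) :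
    (fun n => P.eval k (cons a ρ) (up σ n)) = cons a (fun n => P.eval k ρ (σ n)) := by
  funext n
  cases n with
  | zero => rfl
  | succ n => rw [up_succ, P.eval_subst]; rfl

theorem Pre.sat_subst (P : Pre) (k : P.K) (A : Fm) : ∀ (σ : ℕ → Tm) (ρ : ℕ → P.M k),
    P.Sat k (A.subst σ) ρ ↔ P.Sat k A (fun n => P.eval k ρ (σ n)) := by
  induction A <;> intro σ ρ <;> simp_all [Pre.Sat, Fm.subst, P.eval_subst, P.eval_up]

theorem Pre.of_allN (P : Pre) (k : P.K) (B : Fm) (n : ℕ) (h : ∀ ρ, P.Sat k (allN n B) ρ) :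
    ∀ ρ, P.Sat k B ρ := by
  induction n with
  | zero => exact h
  | succ n ih =>
    refine ih fun ρ => ?_
    have := h (fun n => ρ (n + 1)) (ρ 0)
    have e : cons (ρ 0) (fun n => ρ (n + 1)) = ρ := by funext n; cases n <;> rfl
    rwa [e] at this

theorem Pre.induct (P : Pre) (k : P.K) (h : ∀ A, Ax A → ∀ ρ, P.Sat k A ρ) (A : Fm)
    (ρ : ℕ → P.M k) (h0 : P.Sat k A (cons (P.zero k) ρ))
    (hs : ∀ b, P.Sat k A (cons b ρ) → P.Sat k A (cons (P.succ k b) ρ)) (b : P.M k) :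
    P.Sat k A (cons b ρ) := by
  obtain ⟨n, hn⟩ := A.exists_bdd
  have h1 := P.of_allN k _ n (h _ (.induction n A (hn.mono (Nat.le_succ n)))) ρ
  refine h1 ⟨?_, fun b hb => ?_⟩ b
  · rw [Fm.inst, P.sat_subst, comp_cons (P.eval k ρ)]
    exact h0
  · rw [P.sat_subst, comp_cons (P.eval k (cons b ρ))]
    exact hs b hb

/-- `m` existential quantifiers -/
def exN : ℕ → Fm → Fm
  | 0, B => B
  | m + 1, B => .ex (exN m B)

/-- `w 0, ..., w (m-1), ρ 0, ρ 1, ...` -/
def apd {α : Type} (m : ℕ) (w ρ : ℕ → α) : ℕ → α := fun i => if i < m then w i else ρ (i - m)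

theorem apd_succ {α : Type} (m : ℕ) (w ρ : ℕ → α) :
    apd (m + 1) w ρ = apd m w (cons (w m) ρ) := by
  funext i
  unfold apd
  by_cases h1 : i < m
  · simp [h1, Nat.lt_succ_of_lt h1]
  · by_cases h2 : i = m
    · subst h2; simp
    · obtain ⟨j, rfl⟩ : ∃ j, i = m + (j + 1) := ⟨i - m - 1, by omega⟩
      rw [if_neg h1, if_neg (by omega), show m + (j + 1) - m = j + 1 by omega,
        show m + (j + 1) - (m + 1) = j by omega, cons_succ]

theorem apd_congr {α : Type} (m : ℕ) {w w' : ℕ → α} (ρ : ℕ → α) (h : ∀ i < m, w i = w' i) :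
    apd m w ρ = apd m w' ρ := by
  funext i
  unfold apd
  split_ifs with h1
  · exact h i h1
  · rfl

theorem comp_apd {α β : Type} (f : α → β) (m : ℕ) (w ρ : ℕ → α) :
    (fun n => f (apd m w ρ n)) = apd m (fun n => f (w n)) (fun n => f (ρ n)) := by
  funext i
  unfold apd
  split_ifs <;> rfl

theorem Pre.sat_exN (P : Pre) (k : P.K) (B : Fm) (m : ℕ) : ∀ ρ : ℕ → P.M k,
    P.Sat k (exN m B) ρ ↔ ∃ w, P.Sat k B (apd m w ρ) := by
  induction m with
  | zero => exact fun ρ => ⟨fun h => ⟨ρ, h⟩, fun ⟨_, h⟩ => h⟩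
  | succ m ih =>
    intro ρ
    simp only [exN, Pre.Sat, ih]
    constructor
    · rintro ⟨a, w, h⟩
      refine ⟨Function.update w m a, ?_⟩
      rw [apd_succ, Function.update_self,
        apd_congr m _ (w' := w) fun i hi => Function.update_of_ne hi.ne _ _]
      exact h
    · rintro ⟨w, h⟩
      rw [apd_succ] at h
      exact ⟨_, w, h⟩

/-- numerals -/
def numT : ℕ → Tm
  | 0 => .zero
  | n + 1 => .succ (numT n)

theorem evN_numT (ρ : ℕ → ℕ) (n : ℕ) : evN ρ (numT n) = n := by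
  induction n <;> simp_all [numT, evN]

theorem poly_terms {γ : Type} (p : Poly γ) (ι : γ → ℕ) :
    ∃ s t : Tm, ∀ ρ : ℕ → ℕ, p (fun x => ρ (ι x)) = (evN ρ s : ℤ) - evN ρ t := by
  induction p using Poly.induction with
  | H1 i => exact ⟨.var (ι i), .zero, fun ρ => by simp [evN]⟩
  | H2 n =>
    refine ⟨numT n.toNat, numT (-n).toNat, fun ρ => ?_⟩
    rw [evN_numT, evN_numT, Poly.const_apply]
    omega
  | H3 f g hf hg =>
    obtain ⟨s, t, h⟩ := hf
    obtain ⟨s', t', h'⟩ := hg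
    refine ⟨.add s t', .add t s', fun ρ => ?_⟩
    rw [Poly.sub_apply, h, h']
    simp only [evN]
    push_cast
    ring
  | H4 f g hf hg =>
    obtain ⟨s, t, h⟩ := hf
    obtain ⟨s', t', h'⟩ := hg
    refine ⟨.add (.mul s s') (.mul t t'), .add (.mul s t') (.mul t s'), fun ρ => ?_⟩
    rw [Poly.mul_apply, h, h']
    simp only [evN]
    push_cast
    ring

open Pool.Agent.Helper844.Dio in
theorem dioph_terms : ∃ (m : ℕ) (s t : Tm),
    (∀ ρ : ℕ → ℕ, ρ 2 ∈ app (ρ 0) (ρ 1) ↔ ∃ w, evN (apd m w ρ) s = evN (apd m w ρ) t) ∧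
    ∀ w ρ ρ' : ℕ → ℕ, (∀ j < 3, ρ j = ρ' j) → evN (apd m w ρ) s = evN (apd m w ρ) t →
      evN (apd m w ρ') s = evN (apd m w ρ') t := by
  have h1 : Nat.Partrec fun q : ℕ => app q.unpair.1 q.unpair.2 :=
    Partrec.nat_iff.1 (app_partrec.comp cunp1 cunp2)
  have h2 := DR.of_partrec h1 (α := Fin 3)
    (pair_dioph (Dioph.proj_dioph 0) (Dioph.proj_dioph 1)) (Dioph.proj_dioph 2)
  obtain ⟨δ, _, p, hp⟩ := finite_dummies h2
  let m := Fintype.card δ
  let ε : δ ≃ Fin m := Fintype.equivFin δ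
  let ι : Fin 3 ⊕ δ → ℕ := Sum.elim (fun j => m + j) (fun d => ε d)
  obtain ⟨s, t, hst⟩ := poly_terms p ι
  have key : ∀ w ρ : ℕ → ℕ, evN (apd m w ρ) s = evN (apd m w ρ) t ↔
      p (Sum.elim (fun j : Fin 3 => ρ j) (fun d => w (ε d))) = 0 := by
    intro w ρ
    have e : (fun x => apd m w ρ (ι x)) = Sum.elim (fun j : Fin 3 => ρ j) (fun d => w (ε d)) := by
      funext x
      rcases x with j | d
      · simp [apd, ι]
      · simp [apd, ι]
    rw [← e, hst]
    omega
  refine ⟨m, s, t, fun ρ => ?_, fun w ρ ρ' h => ?_⟩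
  · have := hp (fun j : Fin 3 => ρ j)
    simp only [Set.mem_setOf_eq, Nat.unpair_pair] at this
    refine this.trans ⟨fun ⟨u, hu⟩ => ?_, fun ⟨w, hw⟩ => ⟨_, (key w ρ).1 hw⟩⟩
    refine ⟨fun i => if h : i < m then u (ε.symm ⟨i, h⟩) else 0, (key _ ρ).2 ?_⟩
    simpa using hu
  · rw [key, key]
    have : (fun j : Fin 3 => ρ j) = fun j : Fin 3 => ρ' j := funext fun j => h j j.2
    rw [this]
    exact id

theorem evN_computable {α : Type} [Primcodable α] {asg : α → ℕ → ℕ}
    (h : ∀ j, Computable fun p => asg p j) (t : Tm) : Computable fun p => evN (asg p) t := by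
  induction t with
  | var n => exact h n
  | zero => exact Computable.const 0
  | succ t ih => exact Computable.succ.comp ih
  | add s t ihs iht => exact Primrec.nat_add.to_comp.comp ihs iht
  | mul s t ihs iht => exact Primrec.nat_mul.to_comp.comp ihs iht

/-- decoding of a tuple -/
def dcd (W j : ℕ) : ℕ := (Denumerable.ofNat (List ℕ) W).getD j 0

theorem dcd_computable (j : ℕ) : Computable fun W => dcd W j :=
  ((Primrec.list_getD 0).comp (Primrec.ofNat (List ℕ)) (Primrec.const j)).to_comp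

theorem exists_dcd (m : ℕ) (w : ℕ → ℕ) : ∃ W, ∀ j < m, dcd W j = w j :=
  ⟨Encodable.encode (List.ofFn fun j : Fin m => w j), fun j hj => by simp [dcd, hj]⟩

/-- decoding of a triple -/
def tri (q j : ℕ) : ℕ :=
  if j = 0 then q.unpair.1 else if j = 1 then q.unpair.2.unpair.1 else q.unpair.2.unpair.2

theorem tri_computable (j : ℕ) : Computable fun q => tri q j := by
  unfold tri
  split_ifs
  · exact cunp1
  · exact cunp1.comp cunp2
  · exact cunp2.comp cunp2

theorem exists_T : ∃ T : Fm, ∀ (k : RN) (ρ : ℕ → k.E),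
    rpre.Sat k T (fun n => k.cl (ρ n)) ↔
      ∀ᶠ i in k.F, (ρ 2).1 i ∈ app ((ρ 0).1 i) ((ρ 1).1 i) := by
  obtain ⟨m, s, t, h1, h2⟩ := dioph_terms
  refine ⟨exN m (.eq s t), fun k ρ => ?_⟩
  have key : ∀ w : ℕ → k.E,
      rpre.Sat k (.eq s t) (apd m (fun n => k.cl (w n)) fun n => k.cl (ρ n)) ↔
      ∀ᶠ i in k.F, evN (apd m (fun n => (w n).1 i) fun n => (ρ n).1 i) s =
        evN (apd m (fun n => (w n).1 i) fun n => (ρ n).1 i) t := by
    intro w
    have := rpre_eq k (apd m w ρ) s t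
    rw [comp_apd k.cl] at this
    refine this.trans (eventually_congr (Eventually.of_forall fun i => ?_))
    rw [comp_apd (fun e : k.E => e.1 i)]
  refine (rpre.sat_exN k _ m _).trans ⟨?_, fun h => ?_⟩
  · rintro ⟨w, hw⟩
    obtain ⟨w, rfl⟩ := k.lift w
    exact ((key w).1 hw).mono fun i hi => (h1 fun n => (ρ n).1 i).2 ⟨_, hi⟩
  · let pr : ℕ → ℕ → Bool := fun q W =>
      decide (evN (apd m (dcd W) (tri q)) s = evN (apd m (dcd W) (tri q)) t)
    have hasg : ∀ j, Computable fun p : ℕ × ℕ => apd m (dcd p.2) (tri p.1) j := by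
      intro j
      unfold apd
      split_ifs
      · exact (dcd_computable j).comp Computable.snd
      · exact (tri_computable _).comp Computable.fst
    have hpr : Computable₂ pr :=
      Primrec.eq.decide.to_comp.comp (evN_computable hasg s) (evN_computable hasg t)
    have hs : Partrec fun q => Nat.rfind fun W => (Part.some (pr q W)) :=
      Partrec.rfind hpr.partrec₂
    let q : ℕ → ℕ := fun i => Nat.pair ((ρ 0).1 i) (Nat.pair ((ρ 1).1 i) ((ρ 2).1 i))
    have hq : FC k.F q := (ρ 0).2.pair ((ρ 1).2.pair (ρ 2).2)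
    have hq' : ∀ i, ∀ j < 3, tri (q i) j = (ρ j).1 i := by
      intro i j hj
      interval_cases j <;> simp [tri, q]
    have h3 : ∀ᶠ i in k.F, ∃ W ∈ Nat.rfind fun W => (Part.some (pr (q i) W)), pr (q i) W = true := by
      filter_upwards [h] with i hi
      obtain ⟨w, hw⟩ := (h1 fun n => (ρ n).1 i).1 hi
      obtain ⟨W, hW⟩ := exists_dcd m w
      have : pr (q i) W = true := by
        simp only [pr, decide_eq_true_eq]
        rw [apd_congr m _ hW]
        exact h2 _ _ _ (fun j hj => (hq' i j hj).symm) hw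
      obtain ⟨W', hW', -⟩ := Nat.rfind_min' (p := pr (q i)) this
      exact ⟨W', hW', by simpa using Nat.rfind_spec hW'⟩
    classical
    let W : ℕ → ℕ := fun i =>
      if h : ∃ W ∈ Nat.rfind fun W => (Part.some (pr (q i) W)), pr (q i) W = true
      then h.choose else 0
    have hW : ∀ᶠ i in k.F, W i ∈ (Nat.rfind fun W => (Part.some (pr (q i) W))) ∧
        pr (q i) (W i) = true := by
      filter_upwards [h3] with i hi
      simp only [W, dif_pos hi]
      exact hi.choose_spec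
    have hWc : FC k.F W := FC.bind₁ hs hq (hW.mono fun _ h => h.1)
    refine ⟨_, (key fun j => ⟨fun i => dcd (W i) j, hWc.comp₁ (dcd_computable j)⟩).2 ?_⟩
    filter_upwards [hW] with i hi
    have := hi.2
    simp only [pr, decide_eq_true_eq] at this
    exact h2 _ _ _ (hq' i) this

/-- `u < v` for variables `u`, `v` -/
def ltF (u v : ℕ) : Fm := .ex (.eq (.add (.var (u + 1)) (.succ (.var 0))) (.var (v + 1)))

theorem sat_lt (k : RN) (ρ : ℕ → k.E) (u v : ℕ) :
    rpre.Sat k (ltF u v) (fun n => k.cl (ρ n)) ↔ ∀ᶠ i in k.F, (ρ u).1 i < (ρ v).1 i := by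
  constructor
  · rintro ⟨a, h⟩
    obtain ⟨a, rfl⟩ := k.cl_surj a
    have : ∀ᶠ i in k.F, (ρ u).1 i + (a.1 i + 1) = (ρ v).1 i :=
      (k.cl_eq (f := k.addE (ρ u) (k.succE a)) (g := ρ v)).1 h
    exact this.mono fun i hi => by omega
  · intro h
    let a : k.E := ⟨fun i => (ρ v).1 i - ((ρ u).1 i + 1), (ρ v).2.sub (ρ u).2.succ⟩
    refine ⟨k.cl a, (k.cl_eq (f := k.addE (ρ u) (k.succE a)) (g := ρ v)).2 ?_⟩
    refine h.mono fun i hi => ?_
    show (ρ u).1 i + ((ρ v).1 i - ((ρ u).1 i + 1) + 1) = (ρ v).1 i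
    omega

theorem not_PA (k : RN) : ¬ ∀ A, Ax A → ∀ ρ, rpre.Sat k A ρ := by
  intro hPA
  obtain ⟨T, hT⟩ := exists_T
  let a : k.E := ⟨id, .of_comp Computable.id⟩
  let ψ : Fm := .ex (.all (.all (.imp (ltF 1 3)
    (.imp (T.subst (cons (.var 1) (cons (.var 4) (cons (.var 0) .var)))) (ltF 0 2)))))
  have hψ : ∀ b : k.E, rpre.Sat k ψ (cons (k.cl b) fun _ => k.cl a) ↔
      ∃ y : k.E, ∀ e x : k.E, (∀ᶠ i in k.F, e.1 i < b.1 i) → (∀ᶠ i in k.F, x.1 i ∈ app (e.1 i) i) →
        ∀ᶠ i in k.F, x.1 i < y.1 i := by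
    intro b
    have inner : ∀ y e x : k.E, rpre.Sat k (.imp (ltF 1 3)
        (.imp (T.subst (cons (.var 1) (cons (.var 4) (cons (.var 0) .var)))) (ltF 0 2)))
        (cons (k.cl x) (cons (k.cl e) (cons (k.cl y) (cons (k.cl b) fun _ => k.cl a)))) ↔
        ((∀ᶠ i in k.F, e.1 i < b.1 i) → (∀ᶠ i in k.F, x.1 i ∈ app (e.1 i) i) →
          ∀ᶠ i in k.F, x.1 i < y.1 i) := by
      intro y e x
      let σ : ℕ → k.E := cons x (cons e (cons y (cons b fun _ => a)))
      have e1 : (cons (k.cl x) (cons (k.cl e) (cons (k.cl y) (cons (k.cl b) fun _ => k.cl a)))) =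
          fun n => k.cl (σ n) := by
        simp only [σ, comp_cons k.cl]
      have h1 := sat_lt k σ 1 3
      have h2 := sat_lt k σ 0 2
      have h3 := (rpre.sat_subst k T (cons (.var 1) (cons (.var 4) (cons (.var 0) .var)))
        fun n => k.cl (σ n)).trans (by
          simp only [rpre_eval]
          exact hT k _)
      rw [← e1] at h1 h2 h3
      exact imp_congr h1 (imp_congr h3 h2)
    constructor
    · rintro ⟨y, h⟩
      obtain ⟨y, rfl⟩ := k.cl_surj y
      exact ⟨y, fun e x => (inner y e x).1 (h (k.cl e) (k.cl x))⟩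
    · rintro ⟨y, h⟩
      refine ⟨k.cl y, fun e x => ?_⟩
      obtain ⟨e, rfl⟩ := k.cl_surj e
      obtain ⟨x, rfl⟩ := k.cl_surj x
      exact (inner y e x).2 (h e x)
  obtain ⟨b, hb, hb'⟩ := k.ns
  have main := rpre.induct k hPA ψ (fun _ => k.cl a) ?_ ?_ (k.cl ⟨b, hb⟩)
  · obtain ⟨y, hy⟩ := (hψ _).1 main
    obtain ⟨g, hg, hy'⟩ := y.2
    obtain ⟨e, he⟩ := exists_app hg
    have := hy ⟨fun _ => e, .const e⟩ y (hb' e) (hy'.mono fun i hi => by rw [← he] at hi; exact hi)
    exact k.not_both this (Eventually.of_forall fun i => lt_irrefl _)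
  · refine (hψ k.zeroE).2 ⟨k.zeroE, fun e x h _ => ?_⟩
    exact (k.not_both h (Eventually.of_forall fun i => Nat.not_lt_zero _)).elim
  · intro c hc
    obtain ⟨c, rfl⟩ := k.cl_surj c
    obtain ⟨y, hy⟩ := (hψ c).1 hc
    refine (hψ (k.succE c)).2 ?_
    have split : ∀ e : k.E, (∀ᶠ i in k.F, e.1 i < (k.succE c).1 i) →
        (∀ᶠ i in k.F, e.1 i < c.1 i) ∨ ∀ᶠ i in k.F, e.1 i = c.1 i := by
      intro e he
      rcases k.dec_eq e c with h | h
      · exact Or.inr h
      · left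
        filter_upwards [he, h] with i h1 h2
        have : e.1 i < c.1 i + 1 := h1
        omega
    by_cases hx : ∃ x0 : k.E, ∀ᶠ i in k.F, x0.1 i ∈ app (c.1 i) i
    · obtain ⟨x0, hx0⟩ := hx
      refine ⟨k.succE (k.addE y x0), fun e x he hx => ?_⟩
      rcases split e he with h | h
      · refine (hy e x h hx).mono fun i hi => ?_
        show x.1 i < y.1 i + x0.1 i + 1
        omega
      · filter_upwards [hx, hx0, h] with i h1 h2 h3
        rw [h3] at h1
        have := Part.mem_unique h1 h2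
        show x.1 i < y.1 i + x0.1 i + 1
        omega
    · refine ⟨y, fun e x he hx' => ?_⟩
      rcases split e he with h | h
      · exact hy e x h hx'
      · refine absurd ⟨x, ?_⟩ hx
        filter_upwards [hx', h] with i h1 h2
        rwa [h2] at h1

/-- a root node -/
noncomputable def root : RN where
  F := hyperfilter ℕ
  ne := inferInstance
  dec f _ := Ultrafilter.eventually_or.1 (Eventually.of_forall fun i => em (f i = 0))
  ns := ⟨id, .of_comp Computable.id, fun m =>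
    (Nat.hyperfilter_le_atTop) (eventually_gt_atTop m)⟩

theorem nowhere_PA : ∃ (K : Type) (_ : PartialOrder K) (U : Type) (𝒦 : Kripke K U),
    Nonempty K ∧ 𝒦.ForcesHA ∧ ∀ k, ¬ (𝒦.M k).IsPA :=
  ⟨rpre.Node, inferInstance, rpre.U, rpre.lit, ⟨Pre.base root⟩,
    fun _ hA => Pre.forces_lit.2 fun k ρ => rpre_HA hA k ρ,
    fun p h => not_PA p.k ((Pre.isPA_lit p).1 h)⟩

end Pool.Agent.H246Z.HA
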