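import Pool.Agent.H246Z.HARz
import Pool.Agent.H246Z.HALit
import Pool.Agent.Helper844.DPRM

/-! The Kripke model of recursive reduced powers: it forces `HA`, and no node satisfies `PA`. -/

set_option autoImplicit false

namespace Pool.Agent.H246Z.HA

open Filter

/-- Nodes: proper decisive filters carrying a nonstandard computable element. -/
structure RN where
  F : Filter ℕ
  ne : F.NeBot
  dec : Dec F
  ns : ∃ b, FC F b ∧ ∀ m, ∀ᶠ i in F, m < b i

namespace RN

/-- representatives -/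
def E (k : RN) : Type := {f : ℕ → ℕ // FC k.F f}

def setoid (k : RN) : Setoid k.E where
  r f g := ∀ᶠ i in k.F, f.1 i = g.1 i
  iseqv := ⟨fun _ => Eventually.of_forall fun _ => rfl,
    fun h => h.mono fun _ h => h.symm,
    fun h h' => by filter_upwards [h, h'] with i h h' using h.trans h'⟩

def M (k : RN) : Type := Quotient k.setoid

def cl (k : RN) (f : k.E) : k.M := Quotient.mk k.setoid f

theorem cl_eq (k : RN) {f g : k.E} : k.cl f = k.cl g ↔ ∀ᶠ i in k.F, f.1 i = g.1 i :=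
  Quotient.eq

theorem cl_surj (k : RN) (a : k.M) : ∃ f, k.cl f = a := Quotient.exists_rep a

theorem lift (k : RN) (ρ : ℕ → k.M) : ∃ σ : ℕ → k.E, ρ = fun n => k.cl (σ n) := by
  choose σ h using fun n => k.cl_surj (ρ n)
  exact ⟨σ, funext fun n => (h n).symm⟩

def zeroE (k : RN) : k.E := ⟨fun _ => 0, .const 0⟩
def succE (k : RN) (f : k.E) : k.E := ⟨fun i => f.1 i + 1, f.2.succ⟩
def addE (k : RN) (f g : k.E) : k.E := ⟨fun i => f.1 i + g.1 i, f.2.add g.2⟩
def mulE (k : RN) (f g : k.E) : k.E := ⟨fun i => f.1 i * g.1 i, f.2.mul g.2⟩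

def pullE (k k' : RN) {h : ℕ → ℕ} (hh : Computable h) (ht : Tendsto h k'.F k.F) (f : k.E) : k'.E :=
  ⟨fun i => f.1 (h i), f.2.pull hh ht⟩

def evE (k : RN) (ρ : ℕ → k.E) : Tm → k.E
  | .var n => ρ n
  | .zero => k.zeroE
  | .succ t => k.succE (evE k ρ t)
  | .add s t => k.addE (evE k ρ s) (evE k ρ t)
  | .mul s t => k.mulE (evE k ρ s) (evE k ρ t)

theorem evE_val (k : RN) (ρ : ℕ → k.E) (t : Tm) (i : ℕ) :
    (k.evE ρ t).1 i = evN (fun n => (ρ n).1 i) t := by
  induction t with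
  | var n => rfl
  | zero => rfl
  | succ t ih => simp only [evE, evN, ← ih]; rfl
  | add s t ihs iht => simp only [evE, evN, ← ihs, ← iht]; rfl
  | mul s t ihs iht => simp only [evE, evN, ← ihs, ← iht]; rfl

theorem not_both (k : RN) {p : ℕ → Prop} (h : ∀ᶠ i in k.F, p i) (h' : ∀ᶠ i in k.F, ¬ p i) :
    False := by
  have := k.ne
  obtain ⟨i, h1, h2⟩ := (h.and h').exists
  exact h2 h1

theorem dec_eq (k : RN) (f g : k.E) :
    (∀ᶠ i in k.F, f.1 i = g.1 i) ∨ (∀ᶠ i in k.F, f.1 i ≠ g.1 i) := by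
  rcases k.dec _ ((f.2.sub g.2).add (g.2.sub f.2)) with h | h
  · exact Or.inl (h.mono fun i hi => by omega)
  · exact Or.inr (h.mono fun i hi => by omega)

end RN

def rpre : Pre where
  K := RN
  M k := k.M
  zero k := k.cl k.zeroE
  succ k := Quotient.map' (s₁ := k.setoid) (s₂ := k.setoid) k.succE fun _ _ h =>
    Eventually.mono h fun _ hi => congrArg (· + 1) hi
  add k := Quotient.map₂' (s₁ := k.setoid) (s₂ := k.setoid) (s₃ := k.setoid) k.addE
    fun _ _ h _ _ h' => Eventually.mono (Eventually.and h h') fun _ hi =>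
      congrArg₂ (· + ·) hi.1 hi.2
  mul k := Quotient.map₂' (s₁ := k.setoid) (s₂ := k.setoid) (s₃ := k.setoid) k.mulE
    fun _ _ h _ _ h' => Eventually.mono (Eventually.and h h') fun _ hi =>
      congrArg₂ (· * ·) hi.1 hi.2
  R k k' φ := ∃ (h : ℕ → ℕ) (hh : Computable h) (ht : Tendsto h k'.F k.F),
    ∀ f, φ (k.cl f) = k'.cl (k.pullE k' hh ht f)
  R_id k := ⟨id, Computable.id, tendsto_id, fun _ => rfl⟩
  R_comp := by
    rintro k k' k'' φ ψ ⟨h, hh, ht, e⟩ ⟨h', hh', ht', e'⟩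
    refine ⟨h ∘ h', hh.comp hh', ht.comp ht', fun f => ?_⟩
    rw [Function.comp_apply, e, e']
    rfl
  R_inj := by
    rintro k k' φ ⟨h, hh, ht, e⟩ a b hab
    obtain ⟨f, rfl⟩ := k.cl_surj a
    obtain ⟨g, rfl⟩ := k.cl_surj b
    rw [e, e, k'.cl_eq] at hab
    rw [k.cl_eq]
    rcases k.dec_eq f g with h1 | h1
    · exact h1
    · exact (k'.not_both hab (ht.eventually h1)).elim
  R_zero := by
    rintro k k' φ ⟨h, hh, ht, e⟩
    exact e _
  R_succ := by
    rintro k k' φ ⟨h, hh, ht, e⟩ a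
    obtain ⟨f, rfl⟩ := k.cl_surj a
    rw [e]
    exact e (k.succE f)
  R_add := by
    rintro k k' φ ⟨h, hh, ht, e⟩ a b
    obtain ⟨f, rfl⟩ := k.cl_surj a
    obtain ⟨g, rfl⟩ := k.cl_surj b
    rw [e, e]
    exact e (k.addE f g)
  R_mul := by
    rintro k k' φ ⟨h, hh, ht, e⟩ a b
    obtain ⟨f, rfl⟩ := k.cl_surj a
    obtain ⟨g, rfl⟩ := k.cl_surj b
    rw [e, e]
    exact e (k.mulE f g)

theorem rpre_eval (k : RN) (ρ : ℕ → k.E) (t : Tm) :
    rpre.eval k (fun n => k.cl (ρ n)) t = k.cl (k.evE ρ t) := by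
  induction t with
  | var n => rfl
  | zero => rfl
  | succ t ih => simp only [Pre.eval, ih]; rfl
  | add s t ihs iht => simp only [Pre.eval, ihs, iht]; rfl
  | mul s t ihs iht => simp only [Pre.eval, ihs, iht]; rfl

theorem rpre_eq (k : RN) (ρ : ℕ → k.E) (s t : Tm) :
    rpre.eval k (fun n => k.cl (ρ n)) s = rpre.eval k (fun n => k.cl (ρ n)) t ↔
      ∀ᶠ i in k.F, evN (fun n => (ρ n).1 i) s = evN (fun n => (ρ n).1 i) t := by
  rw [rpre_eval, rpre_eval]
  refine k.cl_eq.trans ?_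
  simp only [RN.evE_val]

/-- the map induced by a computable function -/
def RN.map (k k' : RN) {h : ℕ → ℕ} (hh : Computable h) (ht : Tendsto h k'.F k.F) : k.M → k'.M :=
  Quotient.map' (s₁ := k.setoid) (s₂ := k'.setoid) (k.pullE k' hh ht)
    fun _ _ e => ht.eventually e

theorem RN.map_R (k k' : RN) {h : ℕ → ℕ} (hh : Computable h) (ht : Tendsto h k'.F k.F) :
    rpre.R k k' (k.map k' hh ht) := ⟨h, hh, ht, fun _ => rfl⟩

theorem RN.extend (k : RN) (S : ℕ → ℕ → Prop) (B : ℕ → ℕ → ℕ → Prop)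
    (h : ¬ Hit k.F fun i r => ∀ s, S i s → ∃ v ∈ app r s, B i s v) :
    ∃ k' : RN, Tendsto (fun x : ℕ => x.unpair.1) k'.F k.F ∧
      (∀ᶠ x in k'.F, S x.unpair.1 x.unpair.2) ∧
      ¬ Hit k'.F fun x v => B x.unpair.1 x.unpair.2 v := by
  have h0 : ¬ Hit (comap (fun x : ℕ => x.unpair.1) k.F ⊓ 𝓟 {x | S x.unpair.1 x.unpair.2})
      fun x v => B x.unpair.1 x.unpair.2 v := by
    intro hh
    obtain ⟨g, hg, hev⟩ := hit_iff.1 hh
    obtain ⟨l, hl, hl'⟩ := exists_lam hg
    rw [eventually_inf_principal, eventually_comap] at hev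
    refine h ⟨l, .of_comp hl, ?_⟩
    filter_upwards [hev] with i hi s hs
    rw [hl']
    have := hi (Nat.pair i s) (by simp) (by simpa using hs)
    simpa using this
  obtain ⟨G, hG, hn, hne, hdec⟩ := exists_dec h0
  have ht : Tendsto (fun x : ℕ => x.unpair.1) G k.F :=
    tendsto_iff_comap.2 (hG.trans inf_le_left)
  obtain ⟨b, hb, hb'⟩ := k.ns
  exact ⟨⟨G, hne, hdec, _, hb.pull cunp1 ht, fun m => ht.eventually (hb' m)⟩, ht,
    le_principal_iff.1 (hG.trans inf_le_right), hn⟩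

theorem cons_val (k : RN) (a : k.E) (ρ : ℕ → k.E) (i : ℕ) :
    (fun n => (cons a ρ n).1 i) = cons (a.1 i) (fun n => (ρ n).1 i) :=
  comp_cons (fun e : k.E => e.1 i) a ρ

theorem rpre_force (A : Fm) : ∀ (k : RN) (ρ : ℕ → k.E),
    rpre.Force A k (fun n => k.cl (ρ n)) ↔ Hit k.F fun i v => Rz A v fun n => (ρ n).1 i := by
  induction A with
  | eq s t =>
    intro k ρ
    simp only [Pre.Force, Rz]
    rw [rpre_eq]
    exact ⟨fun h => ⟨_, .const 0, h⟩, fun ⟨_, _, h⟩ => h⟩
  | bot =>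
    intro k ρ
    refine ⟨False.elim, fun ⟨_, _, h⟩ => ?_⟩
    have := k.ne
    obtain ⟨_, h⟩ := h.exists
    exact h
  | and A B ihA ihB =>
    intro k ρ
    simp only [Pre.Force, Rz]
    rw [ihA, ihB]
    constructor
    · rintro ⟨⟨r, hr, h⟩, ⟨r', hr', h'⟩⟩
      refine ⟨_, hr.pair hr', ?_⟩
      filter_upwards [h, h'] with i h h'
      simpa using ⟨h, h'⟩
    · rintro ⟨r, hr, h⟩
      exact ⟨⟨_, hr.comp₁ cunp1, h.mono fun _ h => h.1⟩, ⟨_, hr.comp₁ cunp2, h.mono fun _ h => h.2⟩⟩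
  | or A B ihA ihB =>
    intro k ρ
    simp only [Pre.Force, Rz]
    rw [ihA, ihB]
    constructor
    · rintro (⟨r, hr, h⟩ | ⟨r, hr, h⟩)
      · exact ⟨_, (FC.const 0).pair hr, h.mono fun i h => by simpa using h⟩
      · exact ⟨_, (FC.const 1).pair hr, h.mono fun i h => by simpa using h⟩
    · rintro ⟨r, hr, h⟩
      rcases k.dec _ (hr.comp₁ cunp1) with h1 | h1
      · refine Or.inl ⟨_, hr.comp₁ cunp2, ?_⟩
        filter_upwards [h, h1] with i h h1
        exact (h.resolve_right fun h' => h'.1 h1).2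
      · refine Or.inr ⟨_, hr.comp₁ cunp2, ?_⟩
        filter_upwards [h, h1] with i h h1
        exact (h.resolve_left fun h' => h1 h'.1).2
  | imp A B ihA ihB =>
    intro k ρ
    simp only [Pre.Force, Rz]
    constructor
    · intro h
      by_contra hn
      obtain ⟨k', ht, hS, hB⟩ := k.extend (fun i s => Rz A s fun n => (ρ n).1 i)
        (fun i _ v => Rz B v fun n => (ρ n).1 i) hn
      exact hB ((ihB k' fun n => k.pullE k' cunp1 ht (ρ n)).1 (h k' _ (k.map_R k' cunp1 ht)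
        ((ihA k' fun n => k.pullE k' cunp1 ht (ρ n)).2 ⟨_, .of_comp cunp2, hS⟩)))
    · rintro ⟨r, hr, h⟩ k' φ ⟨p, hp, ht, e⟩
      have e' : (fun n => φ (k.cl (ρ n))) = fun n => RN.cl k' (k.pullE k' hp ht (ρ n)) :=
        funext fun n => e _
      rw [e']
      intro hA
      obtain ⟨s, hs, hA'⟩ := (ihA k' _).1 hA
      refine (ihB k' _).2 ?_
      have h2 : ∀ᶠ x in RN.F k', ∃ v ∈ app (r (p x)) (s x), Rz B v fun n => (ρ n).1 (p x) := by
        filter_upwards [ht.eventually h, hA'] with x h1 h2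
        exact h1 _ h2
      classical
      refine ⟨fun x => if h : ∃ v ∈ app (r (p x)) (s x), Rz B v fun n => (ρ n).1 (p x)
        then h.choose else 0, FC.bind₂ app_partrec (hr.pull hp ht) hs ?_, ?_⟩
      · filter_upwards [h2] with x hx
        rw [dif_pos hx]; exact hx.choose_spec.1
      · filter_upwards [h2] with x hx
        rw [dif_pos hx]; exact hx.choose_spec.2
  | all A ih =>
    have ih' : ∀ (k : RN) (a : k.E) (ρ : ℕ → k.E),
        rpre.Force A k (cons (k.cl a) fun n => k.cl (ρ n)) ↔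
          Hit k.F fun i v => Rz A v (cons (a.1 i) fun n => (ρ n).1 i) := by
      intro k a ρ
      have := ih k (cons a ρ)
      rw [comp_cons k.cl] at this
      simp only [cons_val] at this
      exact this
    intro k ρ
    simp only [Pre.Force, Rz]
    constructor
    · intro h
      by_contra hn
      obtain ⟨k', ht, -, hB⟩ := k.extend (fun _ _ => True)
        (fun i s v => Rz A v (cons s fun n => (ρ n).1 i)) (by simpa using hn)
      have h1 := h k' _ (k.map_R k' cunp1 ht) (k'.cl ⟨_, .of_comp cunp2⟩)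
      exact hB ((ih' k' ⟨_, .of_comp cunp2⟩ fun n => k.pullE k' cunp1 ht (ρ n)).1 h1)
    · rintro ⟨r, hr, h⟩ k' φ ⟨p, hp, ht, e⟩ a
      obtain ⟨a, rfl⟩ := RN.cl_surj k' a
      have e' : (fun n => φ (k.cl (ρ n))) = fun n => RN.cl k' (k.pullE k' hp ht (ρ n)) :=
        funext fun n => e _
      rw [e']
      have h2 : ∀ᶠ x in RN.F k', ∃ v ∈ app (r (p x)) (a.1 x),
          Rz A v (cons (a.1 x) fun n => (ρ n).1 (p x)) := by
        filter_upwards [ht.eventually h] with x h1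
        exact h1 _
      refine (ih' k' a fun n => k.pullE k' hp ht (ρ n)).2 ?_
      classical
      refine ⟨fun x => if h : ∃ v ∈ app (r (p x)) (a.1 x),
        Rz A v (cons (a.1 x) fun n => (ρ n).1 (p x)) then h.choose else 0,
        FC.bind₂ app_partrec (hr.pull hp ht) a.2 ?_, ?_⟩
      · filter_upwards [h2] with x hx
        rw [dif_pos hx]; exact hx.choose_spec.1
      · filter_upwards [h2] with x hx
        rw [dif_pos hx]; exact hx.choose_spec.2
  | ex A ih =>
    have ih' : ∀ (k : RN) (a : k.E) (ρ : ℕ → k.E),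
        rpre.Force A k (cons (k.cl a) fun n => k.cl (ρ n)) ↔
          Hit k.F fun i v => Rz A v (cons (a.1 i) fun n => (ρ n).1 i) := by
      intro k a ρ
      have := ih k (cons a ρ)
      rw [comp_cons k.cl] at this
      simp only [cons_val] at this
      exact this
    intro k ρ
    simp only [Pre.Force, Rz]
    constructor
    · rintro ⟨a, h⟩
      obtain ⟨a, rfl⟩ := k.cl_surj a
      obtain ⟨r, hr, h2⟩ := (ih' k a ρ).1 h
      exact ⟨_, a.2.pair hr, h2.mono fun i h => by simpa using h⟩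
    · rintro ⟨r, hr, h⟩
      exact ⟨_, (ih' k ⟨_, hr.comp₁ cunp1⟩ ρ).2 ⟨_, hr.comp₁ cunp2, h⟩⟩

theorem rpre_HA {A : Fm} (hA : Ax A) (k : RN) (ρ : ℕ → k.M) : rpre.Force A k ρ := by
  obtain ⟨σ, rfl⟩ := k.lift ρ
  obtain ⟨e, he⟩ := Rz_ax hA
  exact (rpre_force A k σ).2 ⟨_, .const e, Eventually.of_forall fun _ => he _⟩

end Pool.Agent.H246Z.HA
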