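import Pool.Agent.H246Z.HASyn

/-! Kleene realizability, computability along a filter, decisive filters. -/

set_option autoImplicit false

namespace Pool.Agent.H246Z.HA

open Filter Nat.Partrec Nat.Partrec.Code

/-- Kleene application -/
def app (e x : ℕ) : Part ℕ := (Denumerable.ofNat Code e).eval x

theorem app_partrec : Partrec₂ app :=
  eval_part.comp ((Computable.ofNat Code).comp Computable.fst) Computable.snd

theorem exists_app {g : ℕ →. ℕ} (hg : Partrec g) : ∃ e, ∀ x, app e x = g x := by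
  obtain ⟨c, hc⟩ := exists_code.1 (Partrec.nat_iff.1 hg)
  exact ⟨Encodable.encode c, fun x => by simp [app, hc]⟩

theorem exists_lam {g : ℕ →. ℕ} (hg : Partrec g) :
    ∃ l : ℕ → ℕ, Computable l ∧ ∀ a b, app (l a) b = g (Nat.pair a b) := by
  obtain ⟨c, hc⟩ := exists_code.1 (Partrec.nat_iff.1 hg)
  refine ⟨fun a => Encodable.encode (curry c a), ?_, fun a b => by simp [app, eval_curry, hc]⟩
  exact Computable.encode.comp (primrec₂_curry.to_comp.comp (Computable.const c) Computable.id)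

theorem cunp1 : Computable fun n : ℕ => n.unpair.1 := Computable.fst.comp Computable.unpair
theorem cunp2 : Computable fun n : ℕ => n.unpair.2 := Computable.snd.comp Computable.unpair

/-- value of a term in the standard model -/
def evN (ρ : ℕ → ℕ) : Tm → ℕ
  | .var n => ρ n
  | .zero => 0
  | .succ t => evN ρ t + 1
  | .add s t => evN ρ s + evN ρ t
  | .mul s t => evN ρ s * evN ρ t

/-- number realizability -/
def Rz : Fm → ℕ → (ℕ → ℕ) → Prop
  | .eq s t, _, ρ => evN ρ s = evN ρ t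
  | .bot, _, _ => False
  | .and A B, r, ρ => Rz A r.unpair.1 ρ ∧ Rz B r.unpair.2 ρ
  | .or A B, r, ρ => (r.unpair.1 = 0 ∧ Rz A r.unpair.2 ρ) ∨ (r.unpair.1 ≠ 0 ∧ Rz B r.unpair.2 ρ)
  | .imp A B, r, ρ => ∀ s, Rz A s ρ → ∃ v ∈ app r s, Rz B v ρ
  | .all A, r, ρ => ∀ n, ∃ v ∈ app r n, Rz A v (cons n ρ)
  | .ex A, r, ρ => Rz A r.unpair.2 (cons r.unpair.1 ρ)

theorem evN_subst (ρ : ℕ → ℕ) (σ : ℕ → Tm) (t : Tm) :
    evN ρ (t.subst σ) = evN (fun n => evN ρ (σ n)) t := by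
  induction t <;> simp_all [evN, Tm.subst]

theorem evN_up (ρ : ℕ → ℕ) (σ : ℕ → Tm) (a : ℕ) :
    (fun n => evN (cons a ρ) (up σ n)) = cons a (fun n => evN ρ (σ n)) := by
  funext n
  cases n with
  | zero => rfl
  | succ n => rw [up_succ, evN_subst]; rfl

theorem Rz_subst (A : Fm) : ∀ (σ : ℕ → Tm) (r : ℕ) (ρ : ℕ → ℕ),
    Rz (A.subst σ) r ρ ↔ Rz A r (fun n => evN ρ (σ n)) := by
  induction A <;> intro σ r ρ <;> simp_all [Rz, Fm.subst, evN_subst, evN_up]

theorem Rz_all {B : Fm} (h : ∃ e, ∀ ρ, Rz B e ρ) : ∃ e, ∀ ρ, Rz (.all B) e ρ := by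
  obtain ⟨e, he⟩ := h
  obtain ⟨c, hc⟩ := exists_app (g := fun _ => Part.some e) (Computable.const e)
  exact ⟨c, fun ρ n => ⟨e, by simp [hc], he _⟩⟩

theorem Rz_imp0 {A B : Fm} (h : ∀ ρ s, Rz A s ρ → Rz B 0 ρ) : ∃ e, ∀ ρ, Rz (.imp A B) e ρ := by
  obtain ⟨c, hc⟩ := exists_app (g := fun _ => Part.some 0) (Computable.const 0)
  exact ⟨c, fun ρ s hs => ⟨0, by simp [hc], h ρ s hs⟩⟩

/-- the recursor -/
def recG (p : ℕ) : Part ℕ :=
  Nat.rec (Part.some p.unpair.1.unpair.1)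
    (fun y IH => IH.bind fun w => (app p.unpair.1.unpair.2 y).bind fun u => app u w) p.unpair.2

theorem recG_partrec : Partrec recG := by
  have h1 : Partrec₂ fun (p : ℕ) (q : ℕ × ℕ) =>
      (app p.unpair.1.unpair.2 q.1).bind fun u => app u q.2 := by
    refine Partrec.bind (app_partrec.comp (cunp2.comp (cunp1.comp Computable.fst))
      (Computable.fst.comp Computable.snd)) ?_
    exact app_partrec.comp Computable.snd (Computable.snd.comp (Computable.snd.comp Computable.fst))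
  exact Partrec.nat_rec cunp2 (cunp1.comp cunp1) h1

theorem Rz_ind (A : Fm) : ∃ e, ∀ ρ, Rz (ind A) e ρ := by
  obtain ⟨l, hl, hl'⟩ := exists_lam recG_partrec
  obtain ⟨e, he⟩ := exists_app (g := fun s => Part.some (l s)) hl
  refine ⟨e, fun ρ s hs => ⟨l s, by simp [he], fun n => ?_⟩⟩
  obtain ⟨h0, hs⟩ := hs
  rw [hl']
  simp only [recG, Nat.unpair_pair]
  induction n with
  | zero =>
    refine ⟨_, Part.mem_some _, ?_⟩
    rw [Fm.inst, Rz_subst, comp_cons (evN ρ)] at h0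
    exact h0
  | succ n ih =>
    obtain ⟨w, hw, hA⟩ := ih
    obtain ⟨u, hu, hu'⟩ := hs n
    obtain ⟨v, hv, hv'⟩ := hu' w hA
    refine ⟨v, Part.mem_bind hw (Part.mem_bind hu hv), ?_⟩
    rw [Rz_subst, comp_cons (evN (cons n ρ))] at hv'
    exact hv'

theorem Rz_ax {A : Fm} (h : Ax A) : ∃ e, ∀ ρ, Rz A e ρ := by
  cases h with
  | succ_ne => exact Rz_all (Rz_imp0 fun ρ s h => by simp [Rz, evN] at h)
  | succ_inj => exact Rz_all (Rz_all (Rz_imp0 fun ρ s h => by simpa [Rz, evN] using h))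
  | add_zero => exact Rz_all ⟨0, fun ρ => rfl⟩
  | add_succ => exact Rz_all (Rz_all ⟨0, fun ρ => rfl⟩)
  | mul_zero => exact Rz_all ⟨0, fun ρ => rfl⟩
  | mul_succ => exact Rz_all (Rz_all ⟨0, fun ρ => rfl⟩)
  | induction n A hA =>
    clear hA
    induction n with
    | zero => exact Rz_ind A
    | succ n ih => exact Rz_all ih

/-! ### Computability along a filter -/

/-- `f` agrees with a partial recursive function on a set of the filter -/
def FC (F : Filter ℕ) (f : ℕ → ℕ) : Prop := ∃ g : ℕ →. ℕ, Partrec g ∧ ∀ᶠ i in F, f i ∈ g i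

theorem FC.of_comp {F : Filter ℕ} {f : ℕ → ℕ} (hf : Computable f) : FC F f :=
  ⟨f, hf, Eventually.of_forall fun _ => Part.mem_some _⟩

theorem FC.const {F : Filter ℕ} (c : ℕ) : FC F fun _ => c := .of_comp (Computable.const c)

theorem FC.bind₂ {F : Filter ℕ} {f g v : ℕ → ℕ} {op : ℕ → ℕ →. ℕ} (hop : Partrec₂ op)
    (hf : FC F f) (hg : FC F g) (hv : ∀ᶠ i in F, v i ∈ op (f i) (g i)) : FC F v := by
  obtain ⟨f', hf1, hf2⟩ := hf
  obtain ⟨g', hg1, hg2⟩ := hg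
  refine ⟨fun i => (f' i).bind fun a => (g' i).bind fun b => op a b, ?_, ?_⟩
  · refine hf1.bind (Partrec.bind (hg1.comp Computable.fst) ?_)
    exact hop.comp (Computable.snd.comp Computable.fst) Computable.snd
  · filter_upwards [hf2, hg2, hv] with i h1 h2 h3
    exact Part.mem_bind h1 (Part.mem_bind h2 h3)

theorem FC.comp₂ {F : Filter ℕ} {f g : ℕ → ℕ} {op : ℕ → ℕ → ℕ} (hop : Computable₂ op)
    (hf : FC F f) (hg : FC F g) : FC F fun i => op (f i) (g i) :=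
  FC.bind₂ (op := fun a b => Part.some (op a b)) hop hf hg
    (Eventually.of_forall fun _ => Part.mem_some _)

theorem FC.bind₁ {F : Filter ℕ} {f v : ℕ → ℕ} {op : ℕ →. ℕ} (hop : Partrec op)
    (hf : FC F f) (hv : ∀ᶠ i in F, v i ∈ op (f i)) : FC F v :=
  FC.bind₂ (op := fun a _ => op a) (hop.comp Computable.fst) hf hf hv

theorem FC.comp₁ {F : Filter ℕ} {f : ℕ → ℕ} {op : ℕ → ℕ} (hop : Computable op)
    (hf : FC F f) : FC F fun i => op (f i) :=
  FC.comp₂ (op := fun a _ => op a) (hop.comp Computable.fst) hf hf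

theorem FC.pull {F G : Filter ℕ} {f h : ℕ → ℕ} (hf : FC F f) (hh : Computable h)
    (ht : Tendsto h G F) : FC G fun i => f (h i) := by
  obtain ⟨f', hf1, hf2⟩ := hf
  exact ⟨fun i => f' (h i), hf1.comp hh, ht.eventually hf2⟩

theorem FC.mono {F G : Filter ℕ} {f : ℕ → ℕ} (hf : FC F f) (h : G ≤ F) : FC G f :=
  hf.pull Computable.id h

theorem FC.pair {F : Filter ℕ} {f g : ℕ → ℕ} (hf : FC F f) (hg : FC F g) :
    FC F fun i => Nat.pair (f i) (g i) := FC.comp₂ Primrec₂.natPair.to_comp hf hg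

theorem FC.add {F : Filter ℕ} {f g : ℕ → ℕ} (hf : FC F f) (hg : FC F g) :
    FC F fun i => f i + g i := FC.comp₂ Primrec.nat_add.to_comp hf hg

theorem FC.sub {F : Filter ℕ} {f g : ℕ → ℕ} (hf : FC F f) (hg : FC F g) :
    FC F fun i => f i - g i := FC.comp₂ Primrec.nat_sub.to_comp hf hg

theorem FC.mul {F : Filter ℕ} {f g : ℕ → ℕ} (hf : FC F f) (hg : FC F g) :
    FC F fun i => f i * g i := FC.comp₂ Primrec.nat_mul.to_comp hf hg

theorem FC.succ {F : Filter ℕ} {f : ℕ → ℕ} (hf : FC F f) : FC F fun i => f i + 1 :=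
  hf.add (.const 1)

/-- there is an `F`-computable selection for `B` -/
def Hit (F : Filter ℕ) (B : ℕ → ℕ → Prop) : Prop := ∃ r, FC F r ∧ ∀ᶠ i in F, B i (r i)

theorem hit_iff {F : Filter ℕ} {B : ℕ → ℕ → Prop} :
    Hit F B ↔ ∃ g : ℕ →. ℕ, Partrec g ∧ ∀ᶠ i in F, ∃ v ∈ g i, B i v := by
  classical
  constructor
  · rintro ⟨r, ⟨g, hg, h1⟩, h2⟩
    exact ⟨g, hg, by filter_upwards [h1, h2] with i h1 h2 using ⟨_, h1, h2⟩⟩
  · rintro ⟨g, hg, h⟩
    refine ⟨fun i => if h : ∃ v ∈ g i, B i v then h.choose else 0, ⟨g, hg, ?_⟩, ?_⟩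
    · filter_upwards [h] with i hi
      rw [dif_pos hi]; exact hi.choose_spec.1
    · filter_upwards [h] with i hi
      rw [dif_pos hi]; exact hi.choose_spec.2

/-- decisive filters -/
def Dec (F : Filter ℕ) : Prop := ∀ f, FC F f → (∀ᶠ i in F, f i = 0) ∨ (∀ᶠ i in F, f i ≠ 0)

theorem exists_dec {G₀ : Filter ℕ} {B : ℕ → ℕ → Prop} (h : ¬ Hit G₀ B) :
    ∃ G ≤ G₀, ¬ Hit G B ∧ G.NeBot ∧ Dec G := by
  obtain ⟨G, hG, hmax⟩ := zorn_le_nonempty₀ (α := (Filter ℕ)ᵒᵈ)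
    {G | ¬ Hit (OrderDual.ofDual G) B} (by
      intro c hc hch y hy
      refine ⟨OrderDual.toDual (⨅ G ∈ c, OrderDual.ofDual G), ?_, fun z hz => ?_⟩
      · intro hh
        obtain ⟨g, hg, hev⟩ := hit_iff.1 hh
        have hd : DirectedOn ((fun G : (Filter ℕ)ᵒᵈ => OrderDual.ofDual G) ⁻¹'o (· ≥ ·)) c :=
          hch.directedOn
        obtain ⟨G, hG, hm⟩ := (mem_biInf_of_directed hd ⟨y, hy⟩).1 hev
        exact hc hG (hit_iff.2 ⟨g, hg, hm⟩)
      · exact biInf_le (fun G : (Filter ℕ)ᵒᵈ => OrderDual.ofDual G) hz)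
    (OrderDual.toDual G₀) h
  have hn : ¬ Hit (OrderDual.ofDual G) B := hmax.1
  have hm : ∀ G' ≤ OrderDual.ofDual G, ¬ Hit G' B → OrderDual.ofDual G ≤ G' :=
    fun G' h1 h2 => hmax.2 (y := OrderDual.toDual G') h2 h1
  have hG' : OrderDual.ofDual G ≤ G₀ := hG
  generalize OrderDual.ofDual G = G at hn hm hG'
  refine ⟨G, hG', hn, ⟨fun hb => hn ⟨fun _ => 0, .const 0, by simp [hb]⟩⟩, ?_⟩
  rintro f ⟨g, hg, hf⟩
  by_contra hcon
  rw [not_or] at hcon
  have key : ∀ S : Set ℕ, S ∉ G → Hit (G ⊓ 𝓟 S) B := by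
    intro S hS
    by_contra hh
    exact hS (le_principal_iff.1 ((hm _ inf_le_left hh).trans inf_le_right))
  obtain ⟨g1, hg1, h1⟩ := hit_iff.1 (key _ hcon.1)
  obtain ⟨g2, hg2, h2⟩ := hit_iff.1 (key _ hcon.2)
  rw [eventually_inf_principal] at h1 h2
  refine hn (hit_iff.2 ⟨fun i => (g i).bind fun v => cond (decide (v = 0)) (g1 i) (g2 i), ?_, ?_⟩)
  · refine hg.bind (Partrec.cond ?_ (hg1.comp Computable.fst) (hg2.comp Computable.fst))
    exact (Primrec.eq.decide.comp Primrec.snd (Primrec.const 0)).to_comp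
  · filter_upwards [hf, h1, h2] with i hi h1 h2
    by_cases h0 : f i = 0
    · obtain ⟨v, hv, hB⟩ := h1 h0
      exact ⟨v, Part.mem_bind hi (by simpa [h0] using hv), hB⟩
    · obtain ⟨v, hv, hB⟩ := h2 h0
      exact ⟨v, Part.mem_bind hi (by simpa [h0] using hv), hB⟩

end Pool.Agent.H246Z.HA
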