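import Pool.Agent.H246Z.HACanon

/-! Soundness of the calculus for Kripke models. -/

set_option autoImplicit false

namespace Pool.Agent.H246Z.HA

variable {U : Type}

theorem Str.eval_mem (M : Str U) {ρ : ℕ → U} (h : ∀ n, ρ n ∈ M.D) (t : Tm) : M.eval ρ t ∈ M.D := by
  induction t with
  | var n => exact h n
  | zero => exact M.zero_mem
  | succ t ih => exact M.succ_mem _ ih
  | add s t ihs iht => exact M.add_mem _ ihs _ iht
  | mul s t ihs iht => exact M.mul_mem _ ihs _ iht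

theorem Str.Sub.eval {M N : Str U} (s : M.Sub N) {ρ : ℕ → U} (h : ∀ n, ρ n ∈ M.D) (t : Tm) :
    M.eval ρ t = N.eval ρ t := by
  induction t with
  | var n => rfl
  | zero => exact s.2.1
  | succ t ih => simp only [Str.eval]; rw [← ih]; exact s.2.2.1 _ (M.eval_mem h t)
  | add a b iha ihb =>
    simp only [Str.eval]; rw [← iha, ← ihb]; exact s.2.2.2.1 _ (M.eval_mem h a) _ (M.eval_mem h b)
  | mul a b iha ihb =>
    simp only [Str.eval]; rw [← iha, ← ihb]; exact s.2.2.2.2 _ (M.eval_mem h a) _ (M.eval_mem h b)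

theorem Str.eval_subst (M : Str U) (ρ : ℕ → U) (σ : ℕ → Tm) (t : Tm) :
    M.eval ρ (t.subst σ) = M.eval (fun n => M.eval ρ (σ n)) t := by
  induction t <;> simp_all [Str.eval, Tm.subst]

theorem Str.eval_up (M : Str U) (ρ : ℕ → U) (σ : ℕ → Tm) (a : U) :
    (fun n => M.eval (cons a ρ) (up σ n)) = cons a (fun n => M.eval ρ (σ n)) := by
  funext n
  cases n with
  | zero => rfl
  | succ n => rw [up_succ, M.eval_subst]; rfl

theorem cons_mem {D : Set U} {a : U} {ρ : ℕ → U} (ha : a ∈ D) (h : ∀ n, ρ n ∈ D) :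
    ∀ n, cons a ρ n ∈ D := by
  intro n; cases n with
  | zero => exact ha
  | succ n => exact h n

variable {K : Type} [PartialOrder K] (𝒦 : Kripke K U)

theorem Kripke.force_mono (A : Fm) : ∀ {k k' : K} {ρ : ℕ → U}, k ≤ k' → (∀ n, ρ n ∈ (𝒦.M k).D) →
    𝒦.Force A k ρ → 𝒦.Force A k' ρ := by
  induction A with
  | eq s t =>
    intro k k' ρ hk hρ h
    simp only [Kripke.Force] at h ⊢
    rw [← (𝒦.sub k k' hk).eval hρ, ← (𝒦.sub k k' hk).eval hρ, h]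
  | bot => intro k k' ρ _ _ h; exact h
  | and A B ihA ihB => intro k k' ρ hk hρ h; exact ⟨ihA hk hρ h.1, ihB hk hρ h.2⟩
  | or A B ihA ihB => intro k k' ρ hk hρ h; exact h.imp (ihA hk hρ) (ihB hk hρ)
  | imp A B _ _ => intro k k' ρ hk _ h k'' hk'; exact h k'' (hk.trans hk')
  | all A _ => intro k k' ρ hk _ h k'' hk'; exact h k'' (hk.trans hk')
  | ex A ih =>
    rintro k k' ρ hk hρ ⟨a, ha, h⟩
    exact ⟨a, (𝒦.sub k k' hk).1 ha, ih hk (cons_mem ha hρ) h⟩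

theorem Kripke.force_subst (A : Fm) : ∀ (σ : ℕ → Tm) (k : K) (ρ : ℕ → U),
    (∀ n, ρ n ∈ (𝒦.M k).D) →
    (𝒦.Force (A.subst σ) k ρ ↔ 𝒦.Force A k (fun n => (𝒦.M k).eval ρ (σ n))) := by
  induction A with
  | eq s t => intro σ k ρ _; simp only [Kripke.Force, Fm.subst, Str.eval_subst]
  | bot => intro σ k ρ _; rfl
  | and A B ihA ihB =>
    intro σ k ρ hρ; simp only [Kripke.Force, Fm.subst, ihA σ k ρ hρ, ihB σ k ρ hρ]
  | or A B ihA ihB =>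
    intro σ k ρ hρ; simp only [Kripke.Force, Fm.subst, ihA σ k ρ hρ, ihB σ k ρ hρ]
  | imp A B ihA ihB =>
    intro σ k ρ hρ
    simp only [Kripke.Force, Fm.subst]
    refine forall₂_congr fun k' hk => ?_
    have hρ' : ∀ n, ρ n ∈ (𝒦.M k').D := fun n => (𝒦.sub k k' hk).1 (hρ n)
    rw [ihA σ k' ρ hρ', ihB σ k' ρ hρ']
    simp only [(𝒦.sub k k' hk).eval hρ]
  | all A ih =>
    intro σ k ρ hρ
    simp only [Kripke.Force, Fm.subst]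
    refine forall₂_congr fun k' hk => forall₂_congr fun a ha => ?_
    have hρ' : ∀ n, ρ n ∈ (𝒦.M k').D := fun n => (𝒦.sub k k' hk).1 (hρ n)
    rw [ih (up σ) k' _ (cons_mem ha hρ'), Str.eval_up]
    simp only [(𝒦.sub k k' hk).eval hρ]
  | ex A ih =>
    intro σ k ρ hρ
    simp only [Kripke.Force, Fm.subst]
    refine exists_congr fun a => and_congr_right fun ha => ?_
    rw [ih (up σ) k _ (cons_mem ha hρ), Str.eval_up]

theorem Kripke.force_shift (A : Fm) (k : K) (ρ : ℕ → U) (a : U) (ha : a ∈ (𝒦.M k).D)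
    (hρ : ∀ n, ρ n ∈ (𝒦.M k).D) : 𝒦.Force A.shift k (cons a ρ) ↔ 𝒦.Force A k ρ :=
  𝒦.force_subst A sh k _ (cons_mem ha hρ)

theorem Kripke.force_inst (A : Fm) (t : Tm) (k : K) (ρ : ℕ → U)
    (hρ : ∀ n, ρ n ∈ (𝒦.M k).D) :
    𝒦.Force (A.inst t) k ρ ↔ 𝒦.Force A k (cons ((𝒦.M k).eval ρ t) ρ) := by
  rw [Fm.inst, 𝒦.force_subst A _ k ρ hρ, comp_cons ((𝒦.M k).eval ρ)]
  rfl

theorem Kripke.sound {Γ : Set Fm} {A : Fm} (h : Der Γ A) : ∀ (k : K) (ρ : ℕ → U),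
    (∀ n, ρ n ∈ (𝒦.M k).D) → (∀ B ∈ Γ, 𝒦.Force B k ρ) → 𝒦.Force A k ρ := by
  have ins : ∀ {Γ : Set Fm} {B : Fm} {k : K} {ρ : ℕ → U}, 𝒦.Force B k ρ →
      (∀ C ∈ Γ, 𝒦.Force C k ρ) → ∀ C ∈ insert B Γ, 𝒦.Force C k ρ := by
    rintro Γ B k ρ hB hΓ C (rfl | hC)
    · exact hB
    · exact hΓ C hC
  induction h with
  | hyp h => intro k ρ _ hΓ; exact hΓ _ h
  | botE _ ih => intro k ρ hρ hΓ; exact (ih k ρ hρ hΓ).elim
  | andI _ _ ih1 ih2 => intro k ρ hρ hΓ; exact ⟨ih1 k ρ hρ hΓ, ih2 k ρ hρ hΓ⟩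
  | andE₁ _ ih => intro k ρ hρ hΓ; exact (ih k ρ hρ hΓ).1
  | andE₂ _ ih => intro k ρ hρ hΓ; exact (ih k ρ hρ hΓ).2
  | orI₁ _ ih => intro k ρ hρ hΓ; exact Or.inl (ih k ρ hρ hΓ)
  | orI₂ _ ih => intro k ρ hρ hΓ; exact Or.inr (ih k ρ hρ hΓ)
  | orE _ _ _ ih1 ih2 ih3 =>
    intro k ρ hρ hΓ
    rcases ih1 k ρ hρ hΓ with h | h
    · exact ih2 k ρ hρ (ins h hΓ)
    · exact ih3 k ρ hρ (ins h hΓ)
  | impI _ ih =>
    intro k ρ hρ hΓ k' hk hA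
    exact ih k' ρ (fun n => (𝒦.sub k k' hk).1 (hρ n))
      (ins hA fun C hC => 𝒦.force_mono C hk hρ (hΓ C hC))
  | impE _ _ ih1 ih2 => intro k ρ hρ hΓ; exact ih1 k ρ hρ hΓ k le_rfl (ih2 k ρ hρ hΓ)
  | allI _ ih =>
    intro k ρ hρ hΓ k' hk a ha
    have hρ' : ∀ n, ρ n ∈ (𝒦.M k').D := fun n => (𝒦.sub k k' hk).1 (hρ n)
    refine ih k' _ (cons_mem ha hρ') ?_
    rintro _ ⟨C, hC, rfl⟩
    exact (𝒦.force_shift C k' ρ a ha hρ').2 (𝒦.force_mono C hk hρ (hΓ C hC))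
  | allE t _ ih =>
    intro k ρ hρ hΓ
    exact (𝒦.force_inst _ t k ρ hρ).2 (ih k ρ hρ hΓ k le_rfl _ ((𝒦.M k).eval_mem hρ t))
  | exI t _ ih =>
    intro k ρ hρ hΓ
    exact ⟨_, (𝒦.M k).eval_mem hρ t, (𝒦.force_inst _ t k ρ hρ).1 (ih k ρ hρ hΓ)⟩
  | exE _ _ ih1 ih2 =>
    intro k ρ hρ hΓ
    obtain ⟨a, ha, h⟩ := ih1 k ρ hρ hΓ
    refine (𝒦.force_shift _ k ρ a ha hρ).1 (ih2 k _ (cons_mem ha hρ) (ins h ?_))
    rintro _ ⟨C, hC, rfl⟩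
    exact (𝒦.force_shift C k ρ a ha hρ).2 (hΓ C hC)
  | refl t => intro k ρ _ _; rfl
  | eqE A _ _ ih1 ih2 =>
    intro k ρ hρ hΓ
    have h1 : (𝒦.M k).eval ρ _ = (𝒦.M k).eval ρ _ := ih1 k ρ hρ hΓ
    have h2 := ih2 k ρ hρ hΓ
    rw [𝒦.force_inst _ _ k ρ hρ] at h2 ⊢
    rwa [← h1]

theorem complete_iff (T : Set Fm) (hT : ∀ A ∈ T, A.IsSentence) (φ : Fm) (hφ : φ.IsSentence) :
    Der ({A | Ax A} ∪ T) φ ↔
      ∀ (K : Type) [PartialOrder K] (U : Type) (𝒦 : Kripke K U),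
        𝒦.ForcesHA → (∀ A ∈ T, 𝒦.Forces A) → (∀ k, (𝒦.M k).IsPA) → 𝒦.Forces φ := by
  constructor
  · intro h K _ U 𝒦 h1 h2 _ k ρ hρ
    refine 𝒦.sound h k ρ hρ ?_
    rintro B (hB | hB)
    · exact h1 B hB k ρ hρ
    · exact h2 B hB k ρ hρ
  · intro h
    by_contra hn
    obtain ⟨K, _, U, 𝒦, h1, h2, h3, h4⟩ := completeness hT hφ hn
    exact h4 (h K U 𝒦 h1 h2 h3)

end Pool.Agent.H246Z.HA
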