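import Pool.Agent.H246Z.HADefs

/-! Substitution algebra and basic facts on derivability. -/

set_option autoImplicit false

namespace Pool.Agent.H246Z.HA

@[simp] theorem cons_zero {α : Type} (a : α) (ρ : ℕ → α) : cons a ρ 0 = a := rfl
@[simp] theorem cons_succ {α : Type} (a : α) (ρ : ℕ → α) (n : ℕ) : cons a ρ (n + 1) = ρ n := rfl

theorem comp_cons {α β : Type} (f : α → β) (a : α) (ρ : ℕ → α) :
    (fun n => f (cons a ρ n)) = cons (f a) (fun n => f (ρ n)) := by
  funext n; cases n <;> rfl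

/-- the shift substitution -/
def sh : ℕ → Tm := fun n => .var (n + 1)

theorem Fm.shift_def (A : Fm) : A.shift = A.subst sh := rfl

@[simp] theorem up_zero (σ : ℕ → Tm) : up σ 0 = .var 0 := rfl
@[simp] theorem up_succ (σ : ℕ → Tm) (n : ℕ) : up σ (n + 1) = (σ n).subst sh := rfl

@[simp] theorem Tm.subst_var (t : Tm) : t.subst .var = t := by
  induction t <;> simp_all [Tm.subst]

theorem Tm.subst_subst (t : Tm) (σ τ : ℕ → Tm) :
    (t.subst σ).subst τ = t.subst (fun n => (σ n).subst τ) := by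
  induction t <;> simp_all [Tm.subst]

@[simp] theorem up_var : up .var = .var := by
  funext n; cases n <;> rfl

theorem up_up (σ τ : ℕ → Tm) :
    (fun n => (up σ n).subst (up τ)) = up (fun n => (σ n).subst τ) := by
  funext n
  cases n with
  | zero => rfl
  | succ n =>
    simp only [up_succ, Tm.subst_subst]
    rfl

@[simp] theorem Fm.subst_var (A : Fm) : A.subst .var = A := by
  induction A <;> simp_all [Fm.subst]

theorem Fm.subst_subst (A : Fm) (σ τ : ℕ → Tm) :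
    (A.subst σ).subst τ = A.subst (fun n => (σ n).subst τ) := by
  induction A generalizing σ τ <;> simp_all [Fm.subst, Tm.subst_subst, up_up]

theorem up_cons (σ : ℕ → Tm) (t : Tm) (τ : ℕ → Tm) :
    (fun n => (up σ n).subst (cons t τ)) = cons t (fun n => (σ n).subst τ) := by
  funext n
  cases n with
  | zero => rfl
  | succ n =>
    simp only [up_succ, Tm.subst_subst, cons_succ]
    rfl

theorem Fm.up_inst (A : Fm) (σ : ℕ → Tm) (t : Tm) :
    (A.subst (up σ)).inst t = A.subst (cons t σ) := by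
  rw [Fm.inst, Fm.subst_subst, up_cons]; simp

theorem Fm.inst_subst (A : Fm) (t : Tm) (σ : ℕ → Tm) :
    (A.inst t).subst σ = (A.subst (up σ)).inst (t.subst σ) := by
  rw [Fm.up_inst, Fm.inst, Fm.subst_subst]
  congr 1
  funext n; cases n <;> rfl

theorem Fm.shift_subst_up (A : Fm) (σ : ℕ → Tm) :
    A.shift.subst (up σ) = (A.subst σ).shift := by
  rw [Fm.shift_def, Fm.shift_def, Fm.subst_subst, Fm.subst_subst]
  rfl

@[simp] theorem Fm.shift_inst (A : Fm) (t : Tm) : A.shift.inst t = A := by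
  rw [Fm.shift_def, Fm.inst, Fm.subst_subst]
  exact Fm.subst_var A

theorem Fm.shift_subst_cons (A : Fm) (t : Tm) (σ : ℕ → Tm) :
    A.shift.subst (cons t σ) = A.subst σ := by
  rw [Fm.shift_def, Fm.subst_subst]
  rfl

theorem Fm.up_sh_inst (A : Fm) : (A.subst (up sh)).inst (.var 0) = A := by
  rw [Fm.up_inst]
  have : cons (Tm.var 0) sh = Tm.var := by funext n; cases n <;> rfl
  rw [this, Fm.subst_var]

/-! ### Bounds on free variables -/

theorem Tm.Bdd.mono {t : Tm} {n m : ℕ} (h : t.Bdd n) (hnm : n ≤ m) : t.Bdd m := by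
  induction t <;> simp_all [Tm.Bdd]
  omega

theorem Fm.Bdd.mono {A : Fm} {n m : ℕ} (h : A.Bdd n) (hnm : n ≤ m) : A.Bdd m := by
  induction A generalizing n m with
  | eq s t => exact ⟨h.1.mono hnm, h.2.mono hnm⟩
  | bot => trivial
  | and A B ihA ihB => exact ⟨ihA h.1 hnm, ihB h.2 hnm⟩
  | or A B ihA ihB => exact ⟨ihA h.1 hnm, ihB h.2 hnm⟩
  | imp A B ihA ihB => exact ⟨ihA h.1 hnm, ihB h.2 hnm⟩
  | all A ih => exact ih (n := n + 1) h (by omega)
  | ex A ih => exact ih (n := n + 1) h (by omega)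

theorem Tm.exists_bdd (t : Tm) : ∃ n, t.Bdd n := by
  induction t with
  | var m => exact ⟨m + 1, Nat.lt_succ_self m⟩
  | zero => exact ⟨0, trivial⟩
  | succ t ih => exact ih
  | add s t ihs iht =>
    obtain ⟨a, ha⟩ := ihs; obtain ⟨b, hb⟩ := iht
    exact ⟨max a b, ha.mono (le_max_left _ _), hb.mono (le_max_right _ _)⟩
  | mul s t ihs iht =>
    obtain ⟨a, ha⟩ := ihs; obtain ⟨b, hb⟩ := iht
    exact ⟨max a b, ha.mono (le_max_left _ _), hb.mono (le_max_right _ _)⟩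

theorem Fm.exists_bdd (A : Fm) : ∃ n, A.Bdd n := by
  induction A with
  | eq s t =>
    obtain ⟨a, ha⟩ := s.exists_bdd; obtain ⟨b, hb⟩ := t.exists_bdd
    exact ⟨max a b, ha.mono (le_max_left _ _), hb.mono (le_max_right _ _)⟩
  | bot => exact ⟨0, trivial⟩
  | and A B ihA ihB =>
    obtain ⟨a, ha⟩ := ihA; obtain ⟨b, hb⟩ := ihB
    exact ⟨max a b, ha.mono (le_max_left _ _), hb.mono (le_max_right _ _)⟩
  | or A B ihA ihB =>
    obtain ⟨a, ha⟩ := ihA; obtain ⟨b, hb⟩ := ihB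
    exact ⟨max a b, ha.mono (le_max_left _ _), hb.mono (le_max_right _ _)⟩
  | imp A B ihA ihB =>
    obtain ⟨a, ha⟩ := ihA; obtain ⟨b, hb⟩ := ihB
    exact ⟨max a b, ha.mono (le_max_left _ _), hb.mono (le_max_right _ _)⟩
  | all A ih => obtain ⟨a, ha⟩ := ih; exact ⟨a, ha.mono (Nat.le_succ a)⟩
  | ex A ih => obtain ⟨a, ha⟩ := ih; exact ⟨a, ha.mono (Nat.le_succ a)⟩

theorem Tm.Bdd.congr {t : Tm} {n : ℕ} (h : t.Bdd n) {σ τ : ℕ → Tm}
    (e : ∀ i < n, σ i = τ i) : t.subst σ = t.subst τ := by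
  induction t <;> simp_all [Tm.Bdd, Tm.subst]

theorem up_congr {n : ℕ} {σ τ : ℕ → Tm} (e : ∀ i < n, σ i = τ i) :
    ∀ i < n + 1, up σ i = up τ i := by
  intro i hi
  cases i with
  | zero => rfl
  | succ i => simp [e i (by omega)]

theorem Fm.Bdd.congr {A : Fm} {n : ℕ} (h : A.Bdd n) {σ τ : ℕ → Tm}
    (e : ∀ i < n, σ i = τ i) : A.subst σ = A.subst τ := by
  induction A generalizing n σ τ with
  | eq s t => simp only [Fm.subst, h.1.congr e, h.2.congr e]
  | bot => rfl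
  | and A B ihA ihB => simp only [Fm.subst, ihA h.1 e, ihB h.2 e]
  | or A B ihA ihB => simp only [Fm.subst, ihA h.1 e, ihB h.2 e]
  | imp A B ihA ihB => simp only [Fm.subst, ihA h.1 e, ihB h.2 e]
  | all A ih => simp only [Fm.subst, ih (n := n + 1) h (up_congr e)]
  | ex A ih => simp only [Fm.subst, ih (n := n + 1) h (up_congr e)]

theorem Fm.IsSentence.subst {A : Fm} (h : A.IsSentence) (σ : ℕ → Tm) : A.subst σ = A := by
  have := Fm.Bdd.congr h (σ := σ) (τ := .var) (fun i hi => absurd hi (Nat.not_lt_zero i))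
  rw [this, Fm.subst_var]

theorem Tm.Bdd.subst {t : Tm} {n m : ℕ} (h : t.Bdd n) {σ : ℕ → Tm}
    (e : ∀ i < n, (σ i).Bdd m) : (t.subst σ).Bdd m := by
  induction t <;> simp_all [Tm.Bdd, Tm.subst]

theorem Tm.Bdd.sh {t : Tm} {m : ℕ} (h : t.Bdd m) : (t.subst sh).Bdd (m + 1) :=
  h.subst (fun i hi => by simpa [HA.sh, Tm.Bdd] using hi)

theorem up_bdd {n m : ℕ} {σ : ℕ → Tm} (e : ∀ i < n, (σ i).Bdd m) :
    ∀ i < n + 1, (up σ i).Bdd (m + 1) := by
  intro i hi
  cases i with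
  | zero => exact Nat.succ_pos m
  | succ i => exact (e i (by omega)).sh

theorem Fm.Bdd.subst {A : Fm} {n m : ℕ} (h : A.Bdd n) {σ : ℕ → Tm}
    (e : ∀ i < n, (σ i).Bdd m) : (A.subst σ).Bdd m := by
  induction A generalizing n m σ with
  | eq s t => exact ⟨h.1.subst e, h.2.subst e⟩
  | bot => trivial
  | and A B ihA ihB => exact ⟨ihA h.1 e, ihB h.2 e⟩
  | or A B ihA ihB => exact ⟨ihA h.1 e, ihB h.2 e⟩
  | imp A B ihA ihB => exact ⟨ihA h.1 e, ihB h.2 e⟩
  | all A ih => exact ih (n := n + 1) h (up_bdd e)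
  | ex A ih => exact ih (n := n + 1) h (up_bdd e)

theorem allN_bdd {n m : ℕ} {A : Fm} (h : A.Bdd (m + n)) : (allN n A).Bdd m := by
  induction n generalizing m with
  | zero => exact h
  | succ n ih => exact ih (m := m + 1) (by rwa [show m + 1 + n = m + (n + 1) by omega])

theorem ind_bdd {n : ℕ} {A : Fm} (h : A.Bdd (n + 1)) : (ind A).Bdd n := by
  refine ⟨⟨?_, h, ?_⟩, h⟩
  · refine h.subst (fun i hi => ?_)
    cases i with
    | zero => trivial
    | succ i => show i < n; omega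
  · refine h.subst (fun i hi => ?_)
    cases i with
    | zero => exact Nat.succ_pos n
    | succ i => exact hi

theorem Ax.isSentence {A : Fm} (h : Ax A) : A.IsSentence := by
  cases h with
  | induction n A hA => exact allN_bdd (m := 0) (by simpa using ind_bdd hA)
  | _ => simp [Fm.IsSentence, Fm.Bdd, Tm.Bdd]

theorem ind_subst (A : Fm) (σ : ℕ → Tm) : (ind A).subst σ = ind (A.subst (up σ)) := by
  simp only [ind, Fm.subst, Fm.inst_subst, Tm.subst, Fm.subst_subst]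
  congr 5
  funext n
  cases n with
  | zero => rfl
  | succ n =>
    simp only [cons_succ, up_succ, Tm.subst, Tm.subst_subst]
    rfl

/-! ### Derivability -/

theorem Der.mono {Γ Δ : Set Fm} {A : Fm} (h : Der Γ A) (s : Γ ⊆ Δ) : Der Δ A := by
  induction h generalizing Δ with
  | hyp h => exact .hyp (s h)
  | botE _ ih => exact .botE (ih s)
  | andI _ _ ih1 ih2 => exact .andI (ih1 s) (ih2 s)
  | andE₁ _ ih => exact .andE₁ (ih s)
  | andE₂ _ ih => exact .andE₂ (ih s)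
  | orI₁ _ ih => exact .orI₁ (ih s)
  | orI₂ _ ih => exact .orI₂ (ih s)
  | orE _ _ _ ih1 ih2 ih3 =>
    exact .orE (ih1 s) (ih2 (Set.insert_subset_insert s)) (ih3 (Set.insert_subset_insert s))
  | impI _ ih => exact .impI (ih (Set.insert_subset_insert s))
  | impE _ _ ih1 ih2 => exact .impE (ih1 s) (ih2 s)
  | allI _ ih => exact .allI (ih (Set.image_mono s))
  | allE t _ ih => exact .allE t (ih s)
  | exI t _ ih => exact .exI t (ih s)
  | exE _ _ ih1 ih2 => exact .exE (ih1 s) (ih2 (Set.insert_subset_insert (Set.image_mono s)))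
  | refl t => exact .refl t
  | eqE A _ _ ih1 ih2 => exact .eqE A (ih1 s) (ih2 s)

theorem image_shift_up (Γ : Set Fm) (σ : ℕ → Tm) :
    Fm.subst (up σ) '' (Fm.shift '' Γ) = Fm.shift '' (Fm.subst σ '' Γ) := by
  rw [Set.image_image, Set.image_image]
  simp only [Fm.shift_subst_up]

theorem Der.subst {Γ : Set Fm} {A : Fm} (h : Der Γ A) (σ : ℕ → Tm) :
    Der (Fm.subst σ '' Γ) (A.subst σ) := by
  induction h generalizing σ with
  | hyp h => exact .hyp ⟨_, h, rfl⟩
  | botE _ ih => exact .botE (ih σ)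
  | andI _ _ ih1 ih2 => exact .andI (ih1 σ) (ih2 σ)
  | andE₁ _ ih => exact .andE₁ (ih σ)
  | andE₂ _ ih => exact .andE₂ (ih σ)
  | orI₁ _ ih => exact .orI₁ (ih σ)
  | orI₂ _ ih => exact .orI₂ (ih σ)
  | orE _ _ _ ih1 ih2 ih3 =>
    have h2 := ih2 σ; have h3 := ih3 σ
    rw [Set.image_insert_eq] at h2 h3
    exact .orE (ih1 σ) h2 h3
  | impI _ ih =>
    have h2 := ih σ
    rw [Set.image_insert_eq] at h2
    exact .impI h2
  | impE _ _ ih1 ih2 => exact .impE (ih1 σ) (ih2 σ)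
  | allI _ ih =>
    have h2 := ih (up σ)
    rw [image_shift_up] at h2
    exact .allI h2
  | allE t _ ih => rw [Fm.inst_subst]; exact .allE _ (ih σ)
  | exI t _ ih =>
    have h2 := ih σ
    rw [Fm.inst_subst] at h2
    exact .exI _ h2
  | exE _ _ ih1 ih2 =>
    have h2 := ih2 (up σ)
    rw [Set.image_insert_eq, image_shift_up, Fm.shift_subst_up] at h2
    exact .exE (ih1 σ) h2
  | refl t => exact .refl _
  | eqE A _ _ ih1 ih2 =>
    have h2 := ih2 σ
    rw [Fm.inst_subst] at h2 ⊢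
    exact .eqE _ (ih1 σ) h2

theorem Der.shift {Γ : Set Fm} {A : Fm} (h : Der Γ A) : Der (Fm.shift '' Γ) A.shift :=
  h.subst sh

theorem Der.weak {Γ : Set Fm} {A : Fm} (B : Fm) (h : Der Γ A) : Der (insert B Γ) A :=
  h.mono (Set.subset_insert _ _)

theorem Der.h0 {Γ : Set Fm} {A : Fm} : Der (insert A Γ) A := .hyp (Set.mem_insert _ _)

theorem Der.cut {Γ : Set Fm} {A B : Fm} (h : Der Γ A) (h' : Der (insert A Γ) B) : Der Γ B :=
  .impE (.impI h') h

theorem Der.chain {Γ : Set Fm} {A : Fm} (h : Der Γ A) :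
    ∀ S : ℕ → Set Fm, Monotone S → Γ ⊆ ⋃ n, S n → ∃ n, Der (S n) A := by
  have ins : ∀ (B : Fm) (S : ℕ → Set Fm), Monotone S → Monotone fun n => insert B (S n) :=
    fun B S hS a b hab => Set.insert_subset_insert (hS hab)
  have ins' : ∀ (B : Fm) (Γ : Set Fm) (S : ℕ → Set Fm), Γ ⊆ ⋃ n, S n →
      insert B Γ ⊆ ⋃ n, insert B (S n) := by
    intro B Γ S hS x hx
    rcases hx with rfl | hx
    · exact Set.mem_iUnion.2 ⟨0, Set.mem_insert _ _⟩
    · obtain ⟨n, hn⟩ := Set.mem_iUnion.1 (hS hx)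
      exact Set.mem_iUnion.2 ⟨n, Set.mem_insert_of_mem _ hn⟩
  have img : ∀ (S : ℕ → Set Fm), Monotone S → Monotone fun n => Fm.shift '' (S n) :=
    fun S hS a b hab => Set.image_mono (hS hab)
  have img' : ∀ (Γ : Set Fm) (S : ℕ → Set Fm), Γ ⊆ ⋃ n, S n →
      Fm.shift '' Γ ⊆ ⋃ n, Fm.shift '' (S n) := by
    intro Γ S hS
    rw [← Set.image_iUnion]
    exact Set.image_mono hS
  induction h with
  | hyp h =>
    intro S _ hS
    obtain ⟨n, hn⟩ := Set.mem_iUnion.1 (hS h)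
    exact ⟨n, .hyp hn⟩
  | botE _ ih => intro S hS h; obtain ⟨n, hn⟩ := ih S hS h; exact ⟨n, .botE hn⟩
  | andI _ _ ih1 ih2 =>
    intro S hS h; obtain ⟨n, hn⟩ := ih1 S hS h; obtain ⟨m, hm⟩ := ih2 S hS h
    exact ⟨max n m, .andI (hn.mono (hS (le_max_left _ _))) (hm.mono (hS (le_max_right _ _)))⟩
  | andE₁ _ ih => intro S hS h; obtain ⟨n, hn⟩ := ih S hS h; exact ⟨n, .andE₁ hn⟩
  | andE₂ _ ih => intro S hS h; obtain ⟨n, hn⟩ := ih S hS h; exact ⟨n, .andE₂ hn⟩
  | orI₁ _ ih => intro S hS h; obtain ⟨n, hn⟩ := ih S hS h; exact ⟨n, .orI₁ hn⟩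
  | orI₂ _ ih => intro S hS h; obtain ⟨n, hn⟩ := ih S hS h; exact ⟨n, .orI₂ hn⟩
  | orE _ _ _ ih1 ih2 ih3 =>
    intro S hS h
    obtain ⟨n, hn⟩ := ih1 S hS h
    obtain ⟨m, hm⟩ := ih2 _ (ins _ S hS) (ins' _ _ S h)
    obtain ⟨l, hl⟩ := ih3 _ (ins _ S hS) (ins' _ _ S h)
    exact ⟨max n (max m l), .orE (hn.mono (hS (le_max_left _ _)))
      (hm.mono (ins _ S hS (le_trans (le_max_left _ _) (le_max_right _ _))))
      (hl.mono (ins _ S hS (le_trans (le_max_right _ _) (le_max_right _ _))))⟩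
  | impI _ ih =>
    intro S hS h; obtain ⟨n, hn⟩ := ih _ (ins _ S hS) (ins' _ _ S h); exact ⟨n, .impI hn⟩
  | impE _ _ ih1 ih2 =>
    intro S hS h; obtain ⟨n, hn⟩ := ih1 S hS h; obtain ⟨m, hm⟩ := ih2 S hS h
    exact ⟨max n m, .impE (hn.mono (hS (le_max_left _ _))) (hm.mono (hS (le_max_right _ _)))⟩
  | allI _ ih =>
    intro S hS h; obtain ⟨n, hn⟩ := ih _ (img S hS) (img' _ S h); exact ⟨n, .allI hn⟩
  | allE t _ ih => intro S hS h; obtain ⟨n, hn⟩ := ih S hS h; exact ⟨n, .allE t hn⟩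
  | exI t _ ih => intro S hS h; obtain ⟨n, hn⟩ := ih S hS h; exact ⟨n, .exI t hn⟩
  | exE _ _ ih1 ih2 =>
    intro S hS h
    obtain ⟨n, hn⟩ := ih1 S hS h
    obtain ⟨m, hm⟩ := ih2 _ (ins _ _ (img S hS)) (ins' _ _ _ (img' _ S h))
    exact ⟨max n m, .exE (hn.mono (hS (le_max_left _ _)))
      (hm.mono (ins _ _ (img S hS) (le_max_right _ _)))⟩
  | refl t => intro S _ _; exact ⟨0, .refl t⟩
  | eqE A _ _ ih1 ih2 =>
    intro S hS h; obtain ⟨n, hn⟩ := ih1 S hS h; obtain ⟨m, hm⟩ := ih2 S hS h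
    exact ⟨max n m, .eqE A (hn.mono (hS (le_max_left _ _))) (hm.mono (hS (le_max_right _ _)))⟩

/-! ### Equality -/

theorem Tm.sh_cons (s t : Tm) : (s.subst sh).subst (cons t .var) = s := by
  rw [Tm.subst_subst]; exact Tm.subst_var s

theorem Der.symm {Γ : Set Fm} {s t : Tm} (h : Der Γ (.eq s t)) : Der Γ (.eq t s) := by
  have := Der.eqE (.eq (.var 0) (s.subst sh)) h (by
    simp only [Fm.inst, Fm.subst, Tm.subst, cons_zero, Tm.sh_cons]; exact .refl s)
  simpa only [Fm.inst, Fm.subst, Tm.subst, cons_zero, Tm.sh_cons] using this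

theorem Der.trans {Γ : Set Fm} {s t u : Tm} (h : Der Γ (.eq s t)) (h' : Der Γ (.eq t u)) :
    Der Γ (.eq s u) := by
  have := Der.eqE (.eq (s.subst sh) (.var 0)) h' (by
    simpa only [Fm.inst, Fm.subst, Tm.subst, cons_zero, Tm.sh_cons] using h)
  simpa only [Fm.inst, Fm.subst, Tm.subst, cons_zero, Tm.sh_cons] using this

theorem Der.succ_congr {Γ : Set Fm} {s t : Tm} (h : Der Γ (.eq s t)) :
    Der Γ (.eq (.succ s) (.succ t)) := by
  have := Der.eqE (.eq (.succ (s.subst sh)) (.succ (.var 0))) h (by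
    simp only [Fm.inst, Fm.subst, Tm.subst, cons_zero, Tm.sh_cons]; exact .refl _)
  simpa only [Fm.inst, Fm.subst, Tm.subst, cons_zero, Tm.sh_cons] using this

theorem Der.add_congr {Γ : Set Fm} {s t s' t' : Tm} (h : Der Γ (.eq s t)) (h' : Der Γ (.eq s' t')) :
    Der Γ (.eq (.add s s') (.add t t')) := by
  have h1 := Der.eqE (.eq (.add (s.subst sh) (s'.subst sh)) (.add (.var 0) (s'.subst sh))) h (by
    simp only [Fm.inst, Fm.subst, Tm.subst, cons_zero, Tm.sh_cons]; exact .refl _)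
  have h2 := Der.eqE (.eq (.add (t.subst sh) (s'.subst sh)) (.add (t.subst sh) (.var 0))) h' (by
    simp only [Fm.inst, Fm.subst, Tm.subst, cons_zero, Tm.sh_cons]; exact .refl _)
  simp only [Fm.inst, Fm.subst, Tm.subst, cons_zero, Tm.sh_cons] at h1 h2
  exact h1.trans h2

theorem Der.mul_congr {Γ : Set Fm} {s t s' t' : Tm} (h : Der Γ (.eq s t)) (h' : Der Γ (.eq s' t')) :
    Der Γ (.eq (.mul s s') (.mul t t')) := by
  have h1 := Der.eqE (.eq (.mul (s.subst sh) (s'.subst sh)) (.mul (.var 0) (s'.subst sh))) h (by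
    simp only [Fm.inst, Fm.subst, Tm.subst, cons_zero, Tm.sh_cons]; exact .refl _)
  have h2 := Der.eqE (.eq (.mul (t.subst sh) (s'.subst sh)) (.mul (t.subst sh) (.var 0))) h' (by
    simp only [Fm.inst, Fm.subst, Tm.subst, cons_zero, Tm.sh_cons]; exact .refl _)
  simp only [Fm.inst, Fm.subst, Tm.subst, cons_zero, Tm.sh_cons] at h1 h2
  exact h1.trans h2

end Pool.Agent.H246Z.HA
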